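import Pool.Agent.T2H21.PM.Fin

/-!
The theorem on abc triples with one prescribed member.
-/

set_option autoImplicit false

namespace Pool.Agent.T2H21.PM

open Finset Filter Asymptotics

theorem main_pm : ∃ X₀ : ℕ, ∀ X : ℕ, X₀ ≤ X → ∀ n : ℕ, 1 ≤ n →
    (rad n : ℝ) ≤ (Real.log X) ^ (1 / 40 : ℝ) →
    ∃ S : Finset ℕ, Real.exp ((Real.log (Real.log X)) ^ 2 / 200) ≤ (S.card : ℝ) ∧ ∀ m ∈ S,
      √(X : ℝ) < m ∧ m ≤ X ∧ ∃ a b c : ℕ, 0 < a ∧ 0 < b ∧ a.Coprime b ∧ a + b = c ∧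
        ((a = n ∧ c = m) ∨ (a = m ∧ c = n)) ∧
        (rad (a * b * c) : ℝ) * Real.exp ((Real.log (Real.log X)) ^ 2 / 200) < c := by
  have l1 := Real.log_two_gt_d9
  have hev := ((ev_exp.and ev_log).and ev_lcm).and (eventually_ge_atTop (200 : ℕ))
  have hll : Tendsto (fun X : ℕ => Real.log (Real.log (X : ℝ))) atTop atTop :=
    Real.tendsto_log_atTop.comp (Real.tendsto_log_atTop.comp tendsto_natCast_atTop_atTop)
  have hfl : Tendsto (fun X : ℕ => ⌊Real.log (Real.log (X : ℝ)) / (67 / 2 * Real.log 2)⌋₊)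
      atTop atTop := by
    refine tendsto_nat_floor_atTop.comp ?_
    exact hll.atTop_div_const (by positivity)
  obtain ⟨X₀, hX₀⟩ := eventually_atTop.1
    ((hfl.eventually hev).and ((hll.eventually_gt_atTop 0).and (eventually_ge_atTop 1)))
  refine ⟨X₀, fun X hX n hn hρ => ?_⟩
  obtain ⟨⟨⟨⟨h1, h2⟩, h3⟩, h4⟩, h5, h6⟩ := hX₀ X hX
  set K := Real.log (Real.log (X : ℝ)) with hK
  set r := ⌊K / (67 / 2 * Real.log 2)⌋₊ with hr
  have hc : (0 : ℝ) < 67 / 2 * Real.log 2 := by positivity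
  have hlogX : 0 ≤ Real.log (X : ℝ) := Real.log_nonneg (by exact_mod_cast h6)
  have hlogX0 : 0 < Real.log (X : ℝ) := by
    rcases hlogX.lt_or_eq with h | h
    · exact h
    · exfalso
      rw [hK, ← h, Real.log_zero] at h5
      exact lt_irrefl _ h5
  have hKX : Real.log (X : ℝ) = Real.exp K := (Real.exp_log hlogX0).symm
  have hK1 : 67 / 2 * Real.log 2 * r ≤ K := by
    have := Nat.floor_le (show 0 ≤ K / (67 / 2 * Real.log 2) by positivity)
    rw [le_div_iff₀ hc] at this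
    linarith
  have hK2 : K ≤ 67 / 2 * Real.log 2 * ((r : ℝ) + 1) := by
    have := (Nat.lt_floor_add_one (K / (67 / 2 * Real.log 2))).le
    rw [div_le_iff₀ hc] at this
    linarith
  refine at_r h4 h1 h2 h3 h5.le hKX hK1 hK2 hn ?_
  refine hρ.trans (le_of_eq ?_)
  rw [hKX, ← Real.exp_mul]
  congr 1
  ring

end Pool.Agent.T2H21.PM
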