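import Pool.Agent.T2H21.PM.Hermite

/-!
Integer vectors whose power sums vanish to high order.
-/

set_option autoImplicit false

namespace Pool.Agent.T2H21.PM

open Finset Polynomial

theorem erase_eq {m i : ℕ} (hi : i ≤ m) :
    (range (m + 1)).erase i = range i ∪ Ico (i + 1) (m + 1) := by
  ext l
  simp only [mem_erase, mem_range, mem_union, mem_Ico]
  omega

theorem disj (m i : ℕ) : Disjoint (range i) (Ico (i + 1) (m + 1)) := by
  rw [disjoint_left]
  intro l
  simp only [mem_range, mem_Ico]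
  omega

theorem wv_sq {m i : ℕ} (hi : i ≤ m) :
    wv m i ^ 2 = ((i.factorial : ℚ) * (m - i).factorial) ^ 2 := by
  have h1 : ∏ l ∈ range i, ((i : ℚ) - l) = i.factorial := by
    rw [← prod_range_reflect, ← prod_range_add_one_eq_factorial]
    push_cast
    refine prod_congr rfl fun l hl => ?_
    rw [mem_range] at hl
    rw [Nat.cast_sub (by omega), Nat.cast_sub (by omega)]
    push_cast
    ring
  have h2 : ∏ l ∈ Ico (i + 1) (m + 1), ((i : ℚ) - l) = (-1) ^ (m - i) * (m - i).factorial := by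
    rw [prod_Ico_eq_prod_range, ← prod_range_add_one_eq_factorial]
    have e : m + 1 - (i + 1) = m - i := by omega
    rw [e]
    push_cast
    rw [show ((-1 : ℚ) ^ (m - i)) = ∏ _t ∈ range (m - i), (-1 : ℚ) by simp, ← prod_mul_distrib]
    refine prod_congr rfl fun l _ => ?_
    ring
  unfold wv
  rw [erase_eq hi, prod_union (disj m i), h1, h2]
  have h3 : ((-1 : ℚ) ^ (m - i)) ^ 2 = 1 := by
    rw [← pow_mul, mul_comm, pow_mul]
    norm_num
  calc ((i.factorial : ℚ) * ((-1) ^ (m - i) * (m - i).factorial)) ^ 2 =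
      ((i.factorial : ℚ) * (m - i).factorial) ^ 2 * ((-1 : ℚ) ^ (m - i)) ^ 2 := by ring
    _ = _ := by rw [h3, mul_one]

/-- the harmonic numbers -/
def hn (n : ℕ) : ℚ := ∑ t ∈ range n, 1 / ((t : ℚ) + 1)

theorem cv_eq {m i : ℕ} (hi : i ≤ m) : cv m i = hn i - hn (m - i) := by
  have h1 : ∑ l ∈ range i, 1 / ((i : ℚ) - l) = hn i := by
    unfold hn
    rw [← sum_range_reflect]
    refine sum_congr rfl fun l hl => ?_
    rw [mem_range] at hl
    rw [Nat.cast_sub (by omega), Nat.cast_sub (by omega)]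
    push_cast
    congr 1
    ring
  have h2 : ∑ l ∈ Ico (i + 1) (m + 1), 1 / ((i : ℚ) - l) = - hn (m - i) := by
    unfold hn
    rw [sum_Ico_eq_sum_range]
    have e : m + 1 - (i + 1) = m - i := by omega
    rw [e, ← sum_neg_distrib]
    refine sum_congr rfl fun l _ => ?_
    push_cast
    rw [show ((i : ℚ) - (i + 1 + l)) = -((l : ℚ) + 1) by ring, div_neg]
  unfold cv
  rw [erase_eq hi, sum_union (disj m i), h1, h2]
  ring

/-- `L` times the harmonic number, if `L` is divisible by all the denominators -/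
def hz (L n : ℕ) : ℤ := ∑ t ∈ range n, ((L / (t + 1) : ℕ) : ℤ)

theorem hz_eq {L m n : ℕ} (hL : ∀ l, 1 ≤ l → l ≤ m → l ∣ L) (hn' : n ≤ m) :
    ((hz L n : ℤ) : ℚ) = L * hn n := by
  unfold hz hn
  rw [mul_sum]
  simp only [Int.cast_sum, Int.cast_natCast]
  refine sum_congr rfl fun t ht => ?_
  rw [mem_range] at ht
  have h := hL (t + 1) (by omega) (by omega)
  rw [Nat.cast_div h (by positivity)]
  push_cast
  ring

theorem hz_nonneg (L n : ℕ) : 0 ≤ hz L n := sum_nonneg fun _ _ => by positivity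

theorem hz_le (L n : ℕ) : hz L n ≤ n * L := by
  unfold hz
  calc ∑ t ∈ range n, ((L / (t + 1) : ℕ) : ℤ) ≤ ∑ _t ∈ range n, (L : ℤ) :=
        sum_le_sum fun t _ => by exact_mod_cast Nat.div_le_self _ _
    _ = n * L := by simp

/-- the first coefficient -/
def Ac (m L i : ℕ) : ℤ :=
  (m.choose i : ℤ) ^ 2 * (2 * L - 2 * (2 * i - m) * (hz L i - hz L (m - i)))

/-- the second coefficient -/
def Bc (m L i : ℕ) : ℤ := L * (m.choose i : ℤ) ^ 2 * (2 * i - m)

theorem choose_sq {m i : ℕ} (hi : i ≤ m) :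
    ((m.choose i : ℚ)) ^ 2 * wv m i ^ 2 = (m.factorial : ℚ) ^ 2 := by
  rw [wv_sq hi, ← mul_pow]
  congr 1
  have := Nat.choose_mul_factorial_mul_factorial hi
  rw [← this]
  push_cast
  ring

theorem Ac_eq {m L i : ℕ} (hL : ∀ l, 1 ≤ l → l ≤ m → l ∣ L) (hi : i ≤ m) :
    ((Ac m L i : ℤ) : ℚ) = (m.factorial : ℚ) ^ 2 * L * ((2 - 2 * cv m i * (2 * i - m)) /
      wv m i ^ 2) := by
  have hw : wv m i ≠ 0 := wv_ne m i
  rw [← choose_sq hi, cv_eq hi]
  unfold Ac
  push_cast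
  rw [hz_eq hL hi, hz_eq hL (Nat.sub_le m i)]
  field_simp

theorem Bc_eq {m L i : ℕ} (hi : i ≤ m) :
    ((Bc m L i : ℤ) : ℚ) = (m.factorial : ℚ) ^ 2 * L * ((2 * i - m) / wv m i ^ 2) := by
  have hw : wv m i ≠ 0 := wv_ne m i
  rw [← choose_sq hi]
  unfold Bc
  push_cast
  field_simp

theorem power_sum {m L j : ℕ} (hL : ∀ l, 1 ≤ l → l ≤ m → l ∣ L) (hj : j ≤ 2 * m) :
    ∑ i ∈ range (m + 1), (Ac m L i * (i : ℤ) ^ j + j * Bc m L i * (i : ℤ) ^ (j - 1)) =
      if j = 2 * m then 2 * ((m.factorial : ℤ) ^ 2 * L) else 0 := by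
  have key : ((∑ i ∈ range (m + 1), (Ac m L i * (i : ℤ) ^ j + j * Bc m L i * (i : ℤ) ^ (j - 1)) :
      ℤ) : ℚ) = (m.factorial : ℚ) ^ 2 * L * ((C 2 * X - C (m : ℚ)) * X ^ j : ℚ[X]).coeff
        (2 * m + 1) := by
    have hdeg : ((C 2 * X - C (m : ℚ)) * X ^ j : ℚ[X]).natDegree ≤ 2 * m + 1 := by
      refine natDegree_mul_le.trans ?_
      rw [natDegree_X_pow]
      have : (C 2 * X - C (m : ℚ) : ℚ[X]).natDegree ≤ 1 := by
        refine (natDegree_sub_le _ _).trans (max_le ?_ ?_)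
        · exact (natDegree_C_mul_le _ _).trans natDegree_X_le
        · rw [natDegree_C]; exact Nat.zero_le _
      omega
    rw [← hermite m _ hdeg, mul_sum]
    push_cast
    refine sum_congr rfl fun i hi => ?_
    rw [mem_range] at hi
    have hi' : i ≤ m := by omega
    rw [Ac_eq hL hi', Bc_eq hi']
    simp only [derivative_mul, derivative_sub, derivative_C, derivative_X, derivative_X_pow,
      eval_add, eval_mul, eval_sub, eval_C, eval_X, eval_pow, zero_mul, sub_zero, zero_add,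
      mul_one]
    ring
  have h2 : ((C 2 * X - C (m : ℚ)) * X ^ j : ℚ[X]).coeff (2 * m + 1) =
      if j = 2 * m then 2 else 0 := by
    rw [coeff_mul_X_pow', if_pos (by omega)]
    rw [coeff_sub, coeff_C_mul, coeff_X, coeff_C]
    by_cases h : j = 2 * m
    · subst h
      simp
    · rw [if_neg h, if_neg (by omega), if_neg (by omega)]
      ring
  rw [h2] at key
  split_ifs at key ⊢ with h
  · have : ((∑ i ∈ range (m + 1), (Ac m L i * (i : ℤ) ^ j + j * Bc m L i * (i : ℤ) ^ (j - 1)) :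
      ℤ) : ℚ) = ((2 * ((m.factorial : ℤ) ^ 2 * L) : ℤ) : ℚ) := by
      rw [key]
      push_cast
      ring
    exact_mod_cast this
  · rw [mul_zero] at key
    exact_mod_cast key

theorem sum_Bc (m L : ℕ) : ∑ i ∈ range (m + 1), Bc m L i = 0 := by
  have h : ∑ i ∈ range (m + 1), Bc m L i = ∑ i ∈ range (m + 1), - Bc m L i := by
    rw [← sum_range_reflect]
    refine sum_congr rfl fun i hi => ?_
    rw [mem_range] at hi
    unfold Bc
    rw [show m + 1 - 1 - i = m - i by omega, Nat.choose_symm (by omega)]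
    rw [Nat.cast_sub (by omega)]
    ring
  rw [sum_neg_distrib] at h
  omega

theorem Bc_le (m L i : ℕ) (hi : i ≤ m) : |Bc m L i| ≤ 4 ^ m * L * m := by
  unfold Bc
  rw [abs_mul, abs_mul]
  have h1 : |((m.choose i : ℤ)) ^ 2| ≤ 4 ^ m := by
    rw [abs_of_nonneg (by positivity)]
    have : m.choose i ≤ 2 ^ m := Nat.choose_le_two_pow m i
    have h2 : ((m.choose i : ℤ)) ≤ 2 ^ m := by exact_mod_cast this
    calc ((m.choose i : ℤ)) ^ 2 ≤ (2 ^ m) ^ 2 := pow_le_pow_left₀ (by positivity) h2 2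
      _ = 4 ^ m := by rw [← pow_mul, mul_comm, pow_mul]; norm_num
  have h2 : |(2 * (i : ℤ) - m)| ≤ m := by
    rw [abs_le]
    constructor <;> [skip; skip] <;> omega
  have h3 : |(L : ℤ)| = L := abs_of_nonneg (by positivity)
  rw [h3]
  calc (L : ℤ) * |((m.choose i : ℤ)) ^ 2| * |(2 * (i : ℤ) - m)| ≤ L * 4 ^ m * m := by
        gcongr
    _ = 4 ^ m * L * m := by ring

theorem Ac_le (m L i : ℕ) (hi : i ≤ m) : |Ac m L i| ≤ 4 ^ m * L * (2 + 2 * m ^ 2) := by
  unfold Ac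
  rw [abs_mul]
  have h1 : |((m.choose i : ℤ)) ^ 2| ≤ 4 ^ m := by
    rw [abs_of_nonneg (by positivity)]
    have : m.choose i ≤ 2 ^ m := Nat.choose_le_two_pow m i
    have h2 : ((m.choose i : ℤ)) ≤ 2 ^ m := by exact_mod_cast this
    calc ((m.choose i : ℤ)) ^ 2 ≤ (2 ^ m) ^ 2 := pow_le_pow_left₀ (by positivity) h2 2
      _ = 4 ^ m := by rw [← pow_mul, mul_comm, pow_mul]; norm_num
  have h2 : |(2 * (i : ℤ) - m)| ≤ m := by
    rw [abs_le]
    constructor <;> [skip; skip] <;> omega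
  have h3 : |hz L i - hz L (m - i)| ≤ m * L := by
    have a1 := hz_nonneg L i
    have a2 := hz_nonneg L (m - i)
    have a3 := hz_le L i
    have a4 := hz_le L (m - i)
    have a5 : ((i : ℕ) : ℤ) * L ≤ m * L := by
      have : (i : ℤ) ≤ m := by exact_mod_cast hi
      gcongr
    have a6 : (((m - i : ℕ)) : ℤ) * L ≤ m * L := by
      have : ((m - i : ℕ) : ℤ) ≤ m := by exact_mod_cast Nat.sub_le m i
      gcongr
    rw [abs_le]
    constructor <;> linarith
  have h4 : |2 * (L : ℤ) - 2 * (2 * i - m) * (hz L i - hz L (m - i))| ≤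
      2 * L + 2 * (m * (m * L)) := by
    refine (abs_sub _ _).trans ?_
    rw [abs_of_nonneg (show (0 : ℤ) ≤ 2 * (L : ℤ) by positivity)]
    have : |2 * (2 * (i : ℤ) - m) * (hz L i - hz L (m - i))| ≤ 2 * (m * (m * L)) := by
      rw [abs_mul, abs_mul]
      have e : |(2 : ℤ)| = 2 := rfl
      rw [e, mul_assoc]
      gcongr
    linarith
  calc |((m.choose i : ℤ)) ^ 2| * |2 * (L : ℤ) - 2 * (2 * i - m) * (hz L i - hz L (m - i))| ≤
        4 ^ m * (2 * L + 2 * (m * (m * L))) := by gcongr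
    _ = 4 ^ m * L * (2 + 2 * m ^ 2) := by ring

/-- the exponents -/
def ev (m L : ℕ) (z : ℤ) (i : ℕ) : ℤ := Ac m L i + (Bc m L i + i * Ac m L i) * z

theorem ev_le (m L i : ℕ) (hi : i ≤ m) (z : ℤ) (hz1 : 1 ≤ z) :
    |ev m L z i| ≤ 4 ^ m * L * (4 * (m + 1) ^ 3) * z := by
  unfold ev
  have h1 := Ac_le m L i hi
  have h2 := Bc_le m L i hi
  have h3 : |Ac m L i + (Bc m L i + i * Ac m L i) * z| ≤
      |Ac m L i| + (|Bc m L i| + m * |Ac m L i|) * z := by
    refine (abs_add_le _ _).trans ?_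
    rw [abs_mul, abs_of_nonneg (show 0 ≤ z by linarith)]
    have h4 : |Bc m L i + i * Ac m L i| ≤ |Bc m L i| + m * |Ac m L i| := by
      refine (abs_add_le _ _).trans ?_
      rw [abs_mul, abs_of_nonneg (show (0 : ℤ) ≤ (i : ℤ) by positivity)]
      have : (i : ℤ) ≤ m := by exact_mod_cast hi
      gcongr
    gcongr
  refine h3.trans ?_
  have hL : (0 : ℤ) ≤ 4 ^ m * L := by positivity
  calc |Ac m L i| + (|Bc m L i| + m * |Ac m L i|) * z ≤
        |Ac m L i| * z + (|Bc m L i| + m * |Ac m L i|) * z := by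
        have := abs_nonneg (Ac m L i)
        nlinarith
    _ ≤ (4 ^ m * L * (2 + 2 * m ^ 2)) * z +
        (4 ^ m * L * m + m * (4 ^ m * L * (2 + 2 * m ^ 2))) * z := by gcongr
    _ = 4 ^ m * L * (2 + 2 * m ^ 2 + m + m * (2 + 2 * m ^ 2)) * z := by ring
    _ ≤ 4 ^ m * L * (4 * (m + 1) ^ 3) * z := by
        have hm : (0 : ℤ) ≤ m := by positivity
        have : (2 + 2 * (m : ℤ) ^ 2 + m + m * (2 + 2 * m ^ 2)) ≤ 4 * (m + 1) ^ 3 := by
          nlinarith [mul_nonneg hm hm, mul_nonneg (mul_nonneg hm hm) hm]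
        gcongr

end Pool.Agent.T2H21.PM
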