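import Pool.Agent.T2H21.PM.Grp

/-!
Every residue `≡ 1 mod q` modulo `q ^ (2 r + 2)` is a product of small powers of the `r` numbers
`1 + i q w`.
-/

set_option autoImplicit false

namespace Pool.Agent.T2H21.PM

open Finset Polynomial

theorem lc_rel {k n : ℕ} (h2 : 2 ≤ n) (hn : n < k) : ∃ K : ℤ,
    (K ∣ ((k - 1).factorial : ℤ)) ∧ lc k n = (-1) ^ (n + 1) * ((n - 1 : ℕ) * K) ∧
      lc k (n - 1) = (-1) ^ n * (n * K) := by
  obtain ⟨t, ht⟩ := Nat.factorial_dvd_factorial (show n ≤ k - 1 by omega)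
  obtain ⟨l, rfl⟩ : ∃ l, n = l + 2 := ⟨n - 2, by omega⟩
  have hf : (l + 2).factorial = (l + 2) * ((l + 1) * l.factorial) := by
    rw [Nat.factorial_succ, Nat.factorial_succ]
  refine ⟨((l.factorial * t : ℕ) : ℤ), ?_, ?_, ?_⟩
  · refine Int.natCast_dvd_natCast.2 ?_
    rw [ht, hf]
    exact ⟨(l + 2) * (l + 1), by ring⟩
  · unfold lc
    rw [if_neg (by omega), if_neg (by omega)]
    congr 1
    have h1 : (k - 1).factorial / (l + 2) = (l + 1) * (l.factorial * t) := by
      apply Nat.div_eq_of_eq_mul_right (by omega)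
      rw [ht, hf]
      ring
    rw [h1]
    have : l + 2 - 1 = l + 1 := by omega
    rw [this]
    push_cast
    ring
  · unfold lc
    rw [if_neg (by omega), if_neg (by omega)]
    have h1 : (k - 1).factorial / (l + 2 - 1) = (l + 2) * (l.factorial * t) := by
      apply Nat.div_eq_of_eq_mul_right (by omega)
      rw [ht, hf]
      have : l + 2 - 1 = l + 1 := by omega
      rw [this]
      ring
    rw [h1]
    have : l + 2 - 1 + 1 = l + 2 := by omega
    rw [this]
    push_cast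
    ring

/-- the sum of the logarithms as a polynomial in `z` -/
noncomputable def Sp (k m L : ℕ) : ℤ[X] := ∑ i ∈ range (m + 1),
  (C (Ac m L i) + C (Bc m L i + i * Ac m L i) * X) * (Lp k).comp (C (i : ℤ) * X)

theorem eval_Sp (k m L : ℕ) (z : ℤ) : (Sp k m L).eval z =
    ∑ i ∈ range (m + 1), ev m L z i * (Lp k).eval (i * z) := by
  unfold Sp ev
  rw [eval_finsetSum]
  simp only [eval_mul, eval_add, eval_C, eval_X, eval_comp]

theorem coeff_Sp_zero (k m L : ℕ) : (Sp k m L).coeff 0 = 0 := by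
  unfold Sp
  rw [finsetSum_coeff]
  refine sum_eq_zero fun i _ => ?_
  rw [mul_coeff_zero, comp_C_mul_X_coeff, coeff_Lp]
  simp [lc]

theorem coeff_Sp_succ (k m L n : ℕ) : (Sp k m L).coeff (n + 1) =
    ∑ i ∈ range (m + 1), (Ac m L i * (lc k (n + 1) * (i : ℤ) ^ (n + 1)) +
      (Bc m L i + i * Ac m L i) * (lc k n * (i : ℤ) ^ n)) := by
  unfold Sp
  rw [finsetSum_coeff]
  refine sum_congr rfl fun i _ => ?_
  have e : (C (Ac m L i) + C (Bc m L i + i * Ac m L i) * X) * (Lp k).comp (C (i : ℤ) * X) =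
      C (Ac m L i) * (Lp k).comp (C (i : ℤ) * X) +
        X * (C (Bc m L i + i * Ac m L i) * (Lp k).comp (C (i : ℤ) * X)) := by ring
  rw [e, coeff_add, coeff_C_mul, coeff_X_mul, coeff_C_mul, comp_C_mul_X_coeff, comp_C_mul_X_coeff,
    coeff_Lp, coeff_Lp]

theorem coeff_Sp {k m L n : ℕ} (hL : ∀ l, 1 ≤ l → l ≤ m → l ∣ L) (hm : 1 ≤ m) (hmk : 2 * m < k)
    (hn : n ≤ 2 * m) : ∃ K : ℤ, (K ∣ ((k - 1).factorial : ℤ)) ∧
      (Sp k m L).coeff n = K * (if n = 2 * m then 2 * ((m.factorial : ℤ) ^ 2 * L) else 0) := by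
  rcases Nat.eq_zero_or_pos n with h0 | h0
  · subst h0
    refine ⟨1, one_dvd _, ?_⟩
    rw [coeff_Sp_zero, if_neg (by omega)]
    ring
  · obtain ⟨l, rfl⟩ : ∃ l, n = l + 1 := ⟨n - 1, by omega⟩
    rw [coeff_Sp_succ]
    rcases Nat.eq_zero_or_pos l with h1 | h1
    · subst h1
      refine ⟨1, one_dvd _, ?_⟩
      rw [if_neg (by omega)]
      have h2 := power_sum (m := m) (L := L) (j := 1) hL (by omega)
      rw [if_neg (by omega)] at h2
      have h3 := sum_Bc m L
      have h4 : ∑ i ∈ range (m + 1), (Ac m L i * (i : ℤ) ^ 1) = 0 := by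
        simp only [Nat.cast_one, one_mul, Nat.sub_self, pow_zero, mul_one] at h2
        rw [sum_add_distrib, h3, add_zero] at h2
        exact h2
      have h5 : lc k 0 = 0 := by simp [lc]
      calc ∑ i ∈ range (m + 1), (Ac m L i * (lc k (0 + 1) * (i : ℤ) ^ (0 + 1)) +
            (Bc m L i + i * Ac m L i) * (lc k 0 * (i : ℤ) ^ 0)) =
          lc k 1 * ∑ i ∈ range (m + 1), (Ac m L i * (i : ℤ) ^ 1) := by
            rw [mul_sum]
            refine sum_congr rfl fun i _ => ?_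
            rw [h5]
            ring
        _ = 1 * 0 := by rw [h4]; ring
    · obtain ⟨K, hK, hK1, hK2⟩ := lc_rel (k := k) (n := l + 1) (by omega) (by omega)
      have h2 := power_sum (m := m) (L := L) (j := l + 1) hL hn
      refine ⟨(-1) ^ (l + 1) * K, ?_, ?_⟩
      · rcases neg_one_pow_eq_or ℤ (l + 1) with h | h
        · rw [h, one_mul]; exact hK
        · rw [h, neg_one_mul]; exact (neg_dvd).2 hK
      · rw [← h2, mul_sum]
        refine sum_congr rfl fun i _ => ?_
        have e1 : l + 1 - 1 = l := by omega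
        rw [e1] at hK2 hK1 ⊢
        rw [hK1, hK2]
        push_cast
        ring

/-- the order of the polynomial `Sp` -/
theorem Sp_eval {k m L : ℕ} (hL : ∀ l, 1 ≤ l → l ≤ m → l ∣ L) (hm : 1 ≤ m) (hmk : 2 * m < k)
    (z : ℤ) : ∃ K t : ℤ, (K ∣ ((k - 1).factorial : ℤ)) ∧
      (Sp k m L).eval z = z ^ (2 * m) * (K * (2 * ((m.factorial : ℤ) ^ 2 * L)) + z * t) := by
  have h1 : X ^ (2 * m) ∣ Sp k m L := by
    rw [X_pow_dvd_iff]
    intro n hn
    obtain ⟨K, -, hK⟩ := coeff_Sp (k := k) (m := m) (L := L) (n := n) hL hm hmk hn.le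
    rw [hK, if_neg (by omega), mul_zero]
  obtain ⟨g, hg⟩ := h1
  obtain ⟨K, hK, hK'⟩ := coeff_Sp (k := k) (m := m) (L := L) (n := 2 * m) hL hm hmk le_rfl
  rw [if_pos rfl] at hK'
  have h2 : g.coeff 0 = K * (2 * ((m.factorial : ℤ) ^ 2 * L)) := by
    rw [← hK', hg, coeff_X_pow_mul']
    simp
  obtain ⟨u, hu⟩ := (X_dvd_iff (f := g - C (g.coeff 0))).2 (by simp)
  refine ⟨K, u.eval z, hK, ?_⟩
  have h3 : g.eval z = g.coeff 0 + z * u.eval z := by
    have h4 := congrArg (fun p : ℤ[X] => p.eval z) hu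
    simp only [eval_sub, eval_C, eval_mul, eval_X] at h4
    linarith
  rw [hg, eval_mul, eval_pow, eval_X, h3, h2]

/-- the exponents of the elements of order `h` -/
def ex (q L : ℕ) (z : ℤ) (h i : ℕ) : ℤ :=
  if h = 1 then (if i = 1 then 1 else 0)
  else if i ≤ h / 2 then (if h % 2 = 0 then 1 else (q : ℤ)) * ev (h / 2) L z i
  else 0

theorem not_dvd_aux {q r m L : ℕ} (hq : q.Prime) (hr : 2 * r + 2 < q) (hm : m ≤ r)
    (hL : L ∣ r.factorial) {K t : ℤ} (hK : K ∣ ((2 * r + 2 - 1).factorial : ℤ)) (w : ℤ)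
    (hw : ¬ (q : ℤ) ∣ w) :
    ¬ (q : ℤ) ∣ w ^ (2 * m) * (K * (2 * ((m.factorial : ℤ) ^ 2 * L)) + (q * w) * t) := by
  have hqp : Prime (q : ℤ) := Nat.prime_iff_prime_int.1 hq
  intro h
  rcases hqp.dvd_or_dvd h with h | h
  · exact hw (hqp.dvd_of_dvd_pow h)
  · have h0 : (q : ℤ) ∣ (q * w) * t := ⟨w * t, by ring⟩
    rw [dvd_add_left h0] at h
    have hfac : ∀ n, n < q → ¬ (q : ℤ) ∣ (n.factorial : ℤ) := by
      intro n hn hd
      have h2 : q ∣ n.factorial := by exact_mod_cast hd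
      have := (hq.dvd_factorial).1 h2
      omega
    rcases hqp.dvd_or_dvd h with h | h
    · exact hfac _ (by omega) (h.trans hK)
    · rcases hqp.dvd_or_dvd h with h | h
      · have h2 : q ∣ 2 := by exact_mod_cast h
        have := Nat.le_of_dvd (by norm_num) h2
        omega
      · rcases hqp.dvd_or_dvd h with h | h
        · exact hfac m (by omega) (hqp.dvd_of_dvd_pow h)
        · refine hfac r (by omega) (h.trans ?_)
          exact_mod_cast hL

section core

variable {q r w : ℕ} (x : ℕ → (ZMod (q ^ (2 * r + 2)))ˣ)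

theorem x_mem (hx : ∀ i, (x i : ZMod (q ^ (2 * r + 2))) = 1 + i * (q * w)) (i : ℕ) :
    x i ∈ U1 q (2 * r + 2) := by
  rw [mem_U1, hx]
  exact ⟨i * w, by ring⟩

theorem lam_x (hx : ∀ i, (x i : ZMod (q ^ (2 * r + 2))) = 1 + i * (q * w)) (i : ℕ) :
    lam q (2 * r + 2) (x i) = (((Lp (2 * r + 2)).eval ((i : ℤ) * (q * w)) : ℤ) : ZMod _) := by
  unfold lam
  rw [hx, ← aeval_int]
  congr 1
  push_cast
  ring

theorem G_order (hq : q.Prime) (hr : 2 * r + 2 < q) (hw : ¬ q ∣ w) (hr1 : 1 ≤ r)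
    (hx : ∀ i, (x i : ZMod (q ^ (2 * r + 2))) = 1 + i * (q * w)) {L : ℕ}
    (hL : ∀ l, 1 ≤ l → l ≤ r → l ∣ L) (hL2 : L ∣ r.factorial) (h : ℕ) (h1 : 1 ≤ h)
    (h2 : h < 2 * r + 2) : ∃ ω : ZMod (q ^ (2 * r + 2)), IsUnit ω ∧
      ((∏ i ∈ Icc 1 r, x i ^ ex q L (q * w) h i : (ZMod (q ^ (2 * r + 2)))ˣ) :
        ZMod (q ^ (2 * r + 2))) = 1 + q ^ h * ω := by
  have hwz : ¬ (q : ℤ) ∣ (w : ℤ) := by
    intro hd
    exact hw (by exact_mod_cast hd)
  by_cases hone : h = 1
  · subst hone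
    refine ⟨((w : ℤ) : ZMod _), isUnit_int hq hwz, ?_⟩
    have e : ∏ i ∈ Icc 1 r, x i ^ ex q L (q * w) 1 i = x 1 := by
      rw [prod_eq_single 1]
      · simp [ex]
      · intro b _ hb
        simp [ex, hb]
      · intro hb
        rw [mem_Icc] at hb
        omega
    rw [e, hx]
    push_cast
    ring
  · obtain ⟨K, t, hK, hE⟩ := Sp_eval (k := 2 * r + 2) (m := h / 2) (L := L)
      (fun l a b => hL l a (by omega)) (by omega) (by omega) ((q : ℤ) * w)
    set c : ℤ := if h % 2 = 0 then 1 else (q : ℤ) with hc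
    have hsum : ∑ i ∈ Icc 1 r, (ex q L (q * w) h i : ZMod (q ^ (2 * r + 2))) *
        lam q (2 * r + 2) (x i) = ((c * (Sp (2 * r + 2) (h / 2) L).eval ((q : ℤ) * w) : ℤ) :
          ZMod (q ^ (2 * r + 2))) := by
      rw [eval_Sp, mul_sum]
      have hL0 : (Lp (2 * r + 2)).eval (((0 : ℕ) : ℤ) * (q * w)) = 0 := by
        rw [Nat.cast_zero, zero_mul, ← coeff_zero_eq_eval_zero, coeff_Lp]
        simp [lc]
      rw [Finset.range_eq_Ico, sum_eq_sum_Ico_succ_bot (by omega), hL0, mul_zero, mul_zero,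
        zero_add]
      push_cast
      have hsub : Ico (0 + 1) (h / 2 + 1) ⊆ Icc 1 r := by
        intro i hi
        rw [mem_Ico] at hi
        rw [mem_Icc]
        omega
      symm
      refine sum_subset_zero_on_sdiff hsub ?_ ?_
      · intro i hi
        rw [mem_sdiff, mem_Icc, mem_Ico] at hi
        have : ex q L (q * w) h i = 0 := by
          unfold ex
          rw [if_neg hone, if_neg (by omega)]
        rw [this]
        simp
      · intro i hi
        rw [mem_Ico] at hi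
        rw [lam_x x hx]
        have : ex q L (q * w) h i = c * ev (h / 2) L (q * w) i := by
          unfold ex
          rw [if_neg hone, if_pos (by omega)]
        rw [this]
        push_cast
        ring
    refine order_of_lam hq (by omega) (by omega) (U1_prod_zpow _ _ (x_mem x hx) _)
      (ω := (((w : ℤ) ^ (2 * (h / 2)) * (K * (2 * (((h / 2).factorial : ℤ) ^ 2 * L)) +
        (q * w) * t) : ℤ) : ZMod _)) ?_ ?_ (by omega)
    · exact isUnit_int hq (not_dvd_aux hq hr (by omega) hL2 hK _ hwz)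
    · rw [lam_prod_zpow (by omega) _ _ (x_mem x hx), hsum, hE]
      rcases Nat.even_or_odd' h with ⟨l, hl | hl⟩
      · have hc1 : c = 1 := by rw [hc, if_pos (by omega)]
        have hl2 : h / 2 = l := by omega
        rw [hc1, hl2]
        push_cast
        rw [hl]
        ring
      · have hc1 : c = q := by rw [hc, if_neg (by omega)]
        have hl2 : h / 2 = l := by omega
        rw [hc1, hl2]
        push_cast
        rw [hl]
        ring

end core

end Pool.Agent.T2H21.PM
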