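import Pool.Agent.T2H21.PM.Fam

/-!
Inequalities that hold for all large `r`.
-/

set_option autoImplicit false

namespace Pool.Agent.T2H21.PM

open Finset Filter Asymptotics

theorem ev_exp : ∀ᶠ r : ℕ in atTop,
    4632 * ((r : ℝ) + 1) ^ 6 ≤ Real.exp (Real.log 2 / 2 * r) := by
  have hb : 0 < Real.log 2 / 2 := by positivity
  have h1 := (isLittleO_pow_exp_pos_mul_atTop 6 hb).bound
    (show (0 : ℝ) < Real.exp (-(Real.log 2 / 2)) / 4632 by positivity)
  have h2 : Tendsto (fun r : ℕ => (r : ℝ) + 1) atTop atTop :=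
    tendsto_atTop_add_const_right _ _ tendsto_natCast_atTop_atTop
  filter_upwards [h2.eventually h1] with r hr
  have hr0 : (0 : ℝ) ≤ (r : ℝ) + 1 := by positivity
  rw [Real.norm_of_nonneg (pow_nonneg hr0 _), Real.norm_of_nonneg (Real.exp_pos _).le] at hr
  have h3 : Real.exp (-(Real.log 2 / 2)) * Real.exp (Real.log 2 / 2 * ((r : ℝ) + 1)) =
      Real.exp (Real.log 2 / 2 * r) := by
    rw [← Real.exp_add]
    congr 1
    ring
  rw [← h3]
  calc 4632 * ((r : ℝ) + 1) ^ 6 ≤ 4632 * (Real.exp (-(Real.log 2 / 2)) / 4632 *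
        Real.exp (Real.log 2 / 2 * ((r : ℝ) + 1))) := by
        exact mul_le_mul_of_nonneg_left hr (by norm_num)
    _ = _ := by ring

theorem ev_log : ∀ᶠ r : ℕ in atTop, Real.log ((r : ℝ) + 1) ≤ ((r : ℝ) + 1) / 100 := by
  have h1 := Real.isLittleO_log_id_atTop.bound (show (0 : ℝ) < 1 / 100 by norm_num)
  have h2 : Tendsto (fun r : ℕ => (r : ℝ) + 1) atTop atTop :=
    tendsto_atTop_add_const_right _ _ tendsto_natCast_atTop_atTop
  filter_upwards [h2.eventually h1] with r hr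
  have hr0 : (0 : ℝ) ≤ (r : ℝ) + 1 := by positivity
  simp only [id_eq] at hr
  rw [Real.norm_of_nonneg hr0] at hr
  calc Real.log ((r : ℝ) + 1) ≤ ‖Real.log ((r : ℝ) + 1)‖ := Real.le_norm_self _
    _ ≤ _ := hr
    _ = _ := by ring

theorem ev_lcm : ∀ᶠ r : ℕ in atTop, Nat.lcmUpto r ≤ 8 ^ r := by
  have h1 := (isLittleO_log_rpow_atTop (show (0 : ℝ) < 1 / 2 by norm_num)).bound
    (show (0 : ℝ) < Real.log 2 / 2 by positivity)
  filter_upwards [(tendsto_natCast_atTop_atTop (R := ℝ)).eventually h1, eventually_ge_atTop 1]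
    with r hr hr1
  have hr1' : (1 : ℝ) ≤ r := by exact_mod_cast hr1
  have h2 := Chebyshev.psi_le hr1'
  rw [Chebyshev.psi_eq_log_lcmUpto] at h2
  rw [Real.norm_of_nonneg (Real.log_nonneg hr1'), Real.norm_of_nonneg (by positivity),
    ← Real.sqrt_eq_rpow] at hr
  have h3 : 2 * √(r : ℝ) * Real.log r ≤ Real.log 2 * r := by
    calc 2 * √(r : ℝ) * Real.log r ≤ 2 * √(r : ℝ) * (Real.log 2 / 2 * √(r : ℝ)) :=
          mul_le_mul_of_nonneg_left hr (by positivity)
      _ = Real.log 2 * (√(r : ℝ) * √(r : ℝ)) := by ring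
      _ = Real.log 2 * r := by rw [Real.mul_self_sqrt (by positivity)]
  have h4 : Real.log 4 = 2 * Real.log 2 := by
    rw [show (4 : ℝ) = 2 ^ 2 by norm_num, Real.log_pow]
    norm_num
  have h5 : Real.log (Nat.lcmUpto r) ≤ Real.log ((8 : ℝ) ^ r) := by
    rw [Real.log_pow, show (8 : ℝ) = 2 ^ 3 by norm_num, Real.log_pow]
    push_cast
    rw [h4] at h2
    linarith
  have h6 : (0 : ℝ) < (Nat.lcmUpto r : ℝ) := by
    exact_mod_cast Nat.lcmUpto_pos r
  have h7 := (Real.log_le_log_iff h6 (by positivity)).1 h5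
  exact_mod_cast h7

end Pool.Agent.T2H21.PM
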