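import Pool.Agent.T2H21.PM.Rad

/-!
The family of integers `m ≡ n mod q ^ (2 r + 2)` of small radical.
-/

set_option autoImplicit false

namespace Pool.Agent.T2H21.PM

open Finset

theorem exists_g {q n : ℕ} (hq : q.Prime) (hn : 0 < n) (hρ : rad n < q) :
    ∃ g : ℕ, 0 < g ∧ g ≤ q * rad n ∧ n ≡ g [MOD q] ∧ g.Coprime n ∧ n.Coprime q := by
  have hqn : ¬ q ∣ n := by
    intro h
    have h1 := Nat.le_of_dvd (rad_pos n) (dvd_rad hq hn.ne' h)
    omega
  have hnq : n.Coprime q := ((Nat.Prime.coprime_iff_not_dvd hq).2 hqn).symm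
  have hqr : q.Coprime (rad n) := by
    refine (Nat.Prime.coprime_iff_not_dvd hq).2 fun h => ?_
    have h1 := Nat.le_of_dvd (rad_pos n) h
    omega
  have h1 := (Nat.chineseRemainder hqr n 1).2
  have h2 := Nat.chineseRemainder_lt_mul hqr n 1 hq.ne_zero (rad_pos n).ne'
  set g := ((Nat.chineseRemainder hqr n 1 : {k // k ≡ n [MOD q] ∧ k ≡ 1 [MOD rad n]}) : ℕ)
  have hg0 : 0 < g := by
    rcases Nat.eq_zero_or_pos g with h0 | h0
    · exfalso
      have h3 := h1.1
      rw [h0] at h3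
      exact hqn ((Nat.modEq_zero_iff_dvd).1 h3.symm)
    · exact h0
  refine ⟨g, hg0, h2.le, h1.1.symm, ?_, hnq⟩
  have h4 : g.Coprime (rad n) := by
    have h5 := h1.2.gcd_eq
    unfold Nat.Coprime
    rw [h5]
    simp
  refine Nat.coprime_of_dvd fun p hp hpg hpn => ?_
  have h6 := Nat.dvd_gcd hpg (dvd_rad hp hn.ne' hpn)
  rw [h4] at h6
  exact hp.one_lt.ne' (Nat.dvd_one.1 h6)

/-- extension of a tuple -/
def ext {r N : ℕ} (ν : Fin r → Fin N) (i : ℕ) : ℕ := if h : i - 1 < r then ν ⟨i - 1, h⟩ else 0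

theorem family {r q n : ℕ} (N0 N : ℕ) (hr1 : 1 ≤ r) (hq : q.Prime) (hr : 2 * r + 2 < q)
    (hn : 0 < n) (hρ : rad n < q) {L : ℕ} (hL : ∀ l, 1 ≤ l → l ≤ r → l ∣ L)
    (hL2 : L ∣ r.factorial) :
    ∃ m : (Fin r → Fin N) → ℕ, Function.Injective m ∧ ∀ ν, (m ν).Coprime n ∧
      m ν ≡ n [MOD q ^ (2 * r + 2)] ∧
      rad (m ν) ≤ (q * rad n) * ∏ i ∈ Icc 1 r, (1 + i * (q * (rad n * primorial r))) ∧
      (1 + q * (rad n * primorial r)) ^ ((2 * TT q r (rad n * primorial r) L + 1) * N0) < m ν ∧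
      m ν ≤ (q * rad n) * ((1 + q * (rad n * primorial r)) ^
        ((2 * TT q r (rad n * primorial r) L + 1) * N0) *
        (1 + r * (q * (rad n * primorial r))) ^
          (r * ((2 * TT q r (rad n * primorial r) L + 1) * N))) := by
  set w := rad n * primorial r with hw
  set T := TT q r w L with hT
  have hP : 0 < primorial r := primorial_pos r
  have hw0 : 0 < w := Nat.mul_pos (rad_pos n) hP
  have hz0 : 0 < q * w := Nat.mul_pos hq.pos hw0
  have hqw : ¬ q ∣ w := by
    intro h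
    rcases (hq.dvd_mul).1 h with h | h
    · have h1 := Nat.le_of_dvd (rad_pos n) h
      omega
    · have h1 : q ∈ (primorial r).primeFactors := Nat.mem_primeFactors.2 ⟨hq, h, hP.ne'⟩
      rw [primeFactors_primorial] at h1
      have := (Nat.mem_primesLE.1 h1).1
      omega
  obtain ⟨g, hg0, hgle, hgn, hgc, hnq⟩ := exists_g hq hn hρ
  set x : ℕ → ℕ := fun i => 1 + i * (q * w) with hx
  have hx1 : ∀ i ∈ Icc 1 r, 1 < x i := by
    intro i hi
    rw [mem_Icc] at hi
    have : 0 < i * (q * w) := Nat.mul_pos (by omega) hz0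
    simp only [hx]
    omega
  have hx0 : ∀ i, x i ≠ 0 := by
    intro i
    simp only [hx]
    omega
  have hxc : ∀ i ∈ Icc 1 r, ∀ j ∈ Icc 1 r, i ≠ j → (x i).Coprime (x j) := by
    intro i hi j hj hij
    rw [mem_Icc] at hi hj
    refine coprime_x (r := r) (fun p hp hpr => ?_) hi.2 hj.2 hij
    refine Dvd.dvd.mul_left (Dvd.dvd.mul_left ?_ _) _
    have h1 : p ∈ (primorial r).primeFactors := by
      rw [primeFactors_primorial]
      exact Nat.mem_primesLE.2 ⟨hpr, hp⟩
    exact Nat.dvd_of_mem_primeFactors h1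
  have hxn : ∀ i, (x i).Coprime n := by
    intro i
    refine Nat.coprime_of_dvd fun p hp h1 h2 => ?_
    have h3 : p ∣ i * (q * w) :=
      ((dvd_rad hp hn.ne' h2).mul_right _).mul_left _ |>.mul_left _
    have h4 : p ∣ 1 := (Nat.dvd_add_left h3).1 h1
    exact hp.one_lt.ne' (Nat.dvd_one.1 h4)
  set s : (Fin r → Fin N) → ℕ → ℕ := fun ν i =>
    T + 1 + (2 * T + 1) * ((if i = 1 then N0 else 0) + ext ν i) with hs
  have hE := fun ν => core_pos hq hr hqw hr1 hL hL2 hgn hnq (s ν) (fun i => by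
    simp only [hs]
    have := Nat.zero_le ((2 * T + 1) * ((if i = 1 then N0 else 0) + ext ν i))
    omega)
  choose E hE1 hE2 using hE
  have hE3 : ∀ ν i, 1 + (2 * T + 1) * ((if i = 1 then N0 else 0) + ext ν i) ≤ E ν i := by
    intro ν i
    have h1 := (hE1 ν i).1
    simp only [hs, ← hT] at h1
    omega
  have hE4 : ∀ ν i, E ν i ≤ (2 * T + 1) * ((if i = 1 then N0 else 0) + ext ν i) + (2 * T + 1) := by
    intro ν i
    have h1 := (hE1 ν i).2
    simp only [hs, ← hT] at h1
    omega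
  refine ⟨fun ν => g * ∏ i ∈ Icc 1 r, x i ^ E ν i, ?_, fun ν => ⟨?_, ?_, ?_, ?_, ?_⟩⟩
  · intro ν μ h
    simp only at h
    have h1 : ∏ i ∈ Icc 1 r, x i ^ E ν i = ∏ i ∈ Icc 1 r, x i ^ E μ i :=
      Nat.eq_of_mul_eq_mul_left hg0 h
    have h2 := indep_x hx1 hxc h1
    have h3 := indep_x hx1 hxc h1.symm
    funext j
    have hj : (j : ℕ) + 1 ∈ Icc 1 r := by
      rw [mem_Icc]
      have := j.2
      omega
    have h4 : E ν (j + 1) = E μ (j + 1) := le_antisymm (h2 _ hj) (h3 _ hj)
    have a1 := hE3 ν (j + 1)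
    have a2 := hE4 ν (j + 1)
    have a3 := hE3 μ (j + 1)
    have a4 := hE4 μ (j + 1)
    rw [h4] at a1 a2
    have h5 : (if (j : ℕ) + 1 = 1 then N0 else 0) + ext ν (j + 1) =
        (if (j : ℕ) + 1 = 1 then N0 else 0) + ext μ (j + 1) := by
      apply le_antisymm
      · by_contra hlt
        push Not at hlt
        have := Nat.mul_le_mul_left (2 * T + 1) (Nat.succ_le_of_lt hlt)
        rw [Nat.succ_eq_add_one, mul_add] at this
        omega
      · by_contra hlt
        push Not at hlt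
        have := Nat.mul_le_mul_left (2 * T + 1) (Nat.succ_le_of_lt hlt)
        rw [Nat.succ_eq_add_one, mul_add] at this
        omega
    have h6 : ext ν (j + 1) = ext μ (j + 1) := by omega
    unfold ext at h6
    have hjr : (j : ℕ) + 1 - 1 < r := by
      have := j.2
      omega
    rw [dif_pos hjr, dif_pos hjr] at h6
    have h7 : (⟨(j : ℕ) + 1 - 1, hjr⟩ : Fin r) = j := by
      ext
      simp
    rw [h7] at h6
    exact Fin.ext h6
  · refine Nat.Coprime.mul_left hgc (Nat.Coprime.prod_left fun i _ => ?_)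
    exact (hxn i).pow_left _
  · exact (hE2 ν).symm
  · refine (rad_mul_le _ _ hg0.ne' (prod_ne_zero_iff.2 fun i _ => pow_ne_zero _ (hx0 i))).trans ?_
    exact Nat.mul_le_mul ((rad_le _ hg0.ne').trans hgle) (rad_prod_le _ _ _ hx0)
  · have h1 : 1 ∈ Icc 1 r := mem_Icc.2 ⟨le_rfl, hr1⟩
    have h2 : x 1 ^ E ν 1 ≤ ∏ i ∈ Icc 1 r, x i ^ E ν i := by
      refine Nat.le_of_dvd (prod_pos fun i _ => Nat.pos_of_ne_zero (pow_ne_zero _ (hx0 i))) ?_
      exact dvd_prod_of_mem (fun i => x i ^ E ν i) h1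
    have h3 : x 1 = 1 + q * w := by simp [hx]
    have h4 : (2 * T + 1) * N0 < E ν 1 := by
      have := hE3 ν 1
      rw [if_pos rfl, mul_add] at this
      omega
    calc (1 + q * w) ^ ((2 * T + 1) * N0) < (1 + q * w) ^ E ν 1 :=
          Nat.pow_lt_pow_right (by omega) h4
      _ = x 1 ^ E ν 1 := by rw [h3]
      _ ≤ ∏ i ∈ Icc 1 r, x i ^ E ν i := h2
      _ ≤ g * ∏ i ∈ Icc 1 r, x i ^ E ν i := Nat.le_mul_of_pos_left _ hg0
  · have hext : ∀ i ∈ Icc 1 r, ext ν i + 1 ≤ N := by
      intro i hi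
      rw [mem_Icc] at hi
      unfold ext
      rw [dif_pos (by omega)]
      exact (ν _).2
    refine Nat.mul_le_mul hgle ?_
    calc ∏ i ∈ Icc 1 r, x i ^ E ν i ≤ ∏ i ∈ Icc 1 r,
          ((if i = 1 then (1 + q * w) ^ ((2 * T + 1) * N0) else 1) *
            (1 + r * (q * w)) ^ ((2 * T + 1) * N)) := by
          refine prod_le_prod' fun i hi => ?_
          have hi' := mem_Icc.1 hi
          have h1 := hE4 ν i
          have h2 := hext i hi
          have h3 : x i ≤ 1 + r * (q * w) := by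
            simp only [hx]
            have := Nat.mul_le_mul_right (q * w) hi'.2
            omega
          have h5 : (2 * T + 1) * (ext ν i + 1) ≤ (2 * T + 1) * N := Nat.mul_le_mul_left _ h2
          split_ifs with h4
          · subst h4
            rw [if_pos rfl] at h1
            have h6 : E ν 1 ≤ (2 * T + 1) * N0 + (2 * T + 1) * N := by
              rw [mul_add] at h1 h5
              omega
            have e1 : x 1 = 1 + q * w := by simp [hx]
            calc x 1 ^ E ν 1 ≤ x 1 ^ ((2 * T + 1) * N0 + (2 * T + 1) * N) :=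
                  Nat.pow_le_pow_right (Nat.pos_of_ne_zero (hx0 1)) h6
              _ = x 1 ^ ((2 * T + 1) * N0) * x 1 ^ ((2 * T + 1) * N) := pow_add _ _ _
              _ ≤ (1 + q * w) ^ ((2 * T + 1) * N0) * (1 + r * (q * w)) ^ ((2 * T + 1) * N) := by
                  refine Nat.mul_le_mul (by rw [e1]) (Nat.pow_le_pow_left h3 _)
          · rw [if_neg h4] at h1
            have h6 : E ν i ≤ (2 * T + 1) * N := by
              rw [mul_add] at h5
              rw [zero_add] at h1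
              omega
            rw [one_mul]
            calc x i ^ E ν i ≤ x i ^ ((2 * T + 1) * N) :=
                  Nat.pow_le_pow_right (Nat.pos_of_ne_zero (hx0 i)) h6
              _ ≤ _ := Nat.pow_le_pow_left h3 _
      _ = (1 + q * w) ^ ((2 * T + 1) * N0) * (1 + r * (q * w)) ^ (r * ((2 * T + 1) * N)) := by
          rw [prod_mul_distrib, prod_const, Nat.card_Icc, ← pow_mul,
            prod_ite_eq' (Icc 1 r) 1 (fun _ => (1 + q * w) ^ ((2 * T + 1) * N0)),
            if_pos (mem_Icc.2 ⟨le_rfl, hr1⟩)]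
          congr 2
          rw [mul_comm]
          congr 1

end Pool.Agent.T2H21.PM
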