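import Pool.Agent.T2H21.PM.Num

/-!
The theorem for one value of the parameter `r`.
-/

set_option autoImplicit false

namespace Pool.Agent.T2H21.PM

open Finset Filter Asymptotics

theorem at_r {r : ℕ} (hr200 : 200 ≤ r)
    (h_exp : 4632 * ((r : ℝ) + 1) ^ 6 ≤ Real.exp (Real.log 2 / 2 * r))
    (h_log : Real.log ((r : ℝ) + 1) ≤ ((r : ℝ) + 1) / 100)
    (h_lcm : Nat.lcmUpto r ≤ 8 ^ r) {X : ℕ} {K : ℝ} (hK0 : 0 ≤ K)
    (hKX : Real.log X = Real.exp K)
    (hK1 : 67 / 2 * Real.log 2 * r ≤ K) (hK2 : K ≤ 67 / 2 * Real.log 2 * ((r : ℝ) + 1))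
    {n : ℕ} (hn : 0 < n) (hρ : (rad n : ℝ) ≤ Real.exp (K / 40)) :
    ∃ S : Finset ℕ, Real.exp (K ^ 2 / 200) ≤ (S.card : ℝ) ∧ ∀ m ∈ S,
      √(X : ℝ) < m ∧ m ≤ X ∧ ∃ a b c : ℕ, 0 < a ∧ 0 < b ∧ a.Coprime b ∧ a + b = c ∧
        ((a = n ∧ c = m) ∨ (a = m ∧ c = n)) ∧
        (rad (a * b * c) : ℝ) * Real.exp (K ^ 2 / 200) < c := by
  have hr' : (200 : ℝ) ≤ r := by exact_mod_cast hr200
  have l1 := Real.log_two_gt_d9
  have l2 := Real.log_two_lt_d9
  set U : ℕ := 2 ^ r with hU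
  have hU1 : 1 ≤ U := Nat.one_le_two_pow
  have hUr : r + 1 ≤ U := Nat.lt_two_pow_self
  have hUe : (U : ℝ) = Real.exp (r * Real.log 2) := by
    rw [hU]
    push_cast
    rw [mul_comm, Real.exp_mul, Real.exp_log (by norm_num), Real.rpow_natCast]
  have hUpow : ∀ k : ℕ, (U : ℝ) ^ k = Real.exp (k * (r * Real.log 2)) := by
    intro k
    rw [hUe, ← Real.exp_nat_mul]
  -- small radical
  have hρU : rad n ≤ U := by
    have h1 : (rad n : ℝ) ≤ U := by
      refine hρ.trans ?_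
      rw [hUe]
      apply Real.exp_le_exp.2
      nlinarith [hK2, hr', l1]
    exact_mod_cast h1
  -- the prime
  obtain ⟨q, hq, hq1, hq2⟩ := Nat.exists_prime_lt_and_le_two_mul (U ^ 7)
    (pow_ne_zero _ (by omega))
  have hUU : U ≤ U ^ 7 := Nat.le_self_pow (by norm_num) U
  have hρq : rad n < q := by omega
  have hrq : 2 * r + 2 < q := by
    have h2 : 2 ≤ U := by
      have : r + 1 ≤ U := hUr
      omega
    have h1 : U * 2 ≤ U ^ 7 := by
      calc U * 2 ≤ U * U ^ 6 := Nat.mul_le_mul_left _ (h2.trans (Nat.le_self_pow (by norm_num) U))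
        _ = U ^ 7 := by ring
    omega
  have h4 : 4 ^ r = U ^ 2 := by
    rw [hU, ← pow_mul, mul_comm, pow_mul]
    norm_num
  have h8 : 8 ^ r = U ^ 3 := by
    rw [hU, ← pow_mul, mul_comm, pow_mul]
    norm_num
  have hP : primorial r ≤ U ^ 2 := by
    rw [← h4]
    exact primorial_le_four_pow r
  have hL : Nat.lcmUpto r ≤ U ^ 3 := by
    rw [← h8]
    exact h_lcm
  have hw : rad n * primorial r ≤ U ^ 3 := by
    calc rad n * primorial r ≤ U * U ^ 2 := Nat.mul_le_mul hρU hP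
      _ = U ^ 3 := by ring
  have hz : q * (rad n * primorial r) ≤ 2 * U ^ 10 := by
    calc q * (rad n * primorial r) ≤ (2 * U ^ 7) * U ^ 3 := Nat.mul_le_mul hq2 hw
      _ = 2 * U ^ 10 := by ring
  have hz1 : 1 ≤ q * (rad n * primorial r) :=
    Nat.mul_pos hq.pos (Nat.mul_pos (rad_pos n) (primorial_pos r))
  have hT := TT_le (r := r) hU hq2 hw hL
  obtain ⟨N0, hN1, hN2⟩ := exists_N0 (T := TT q r (rad n * primorial r) (Nat.lcmUpto r))
    (A := Real.log X) (B := Real.log ((1 + q * (rad n * primorial r) : ℕ) : ℝ))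
    (by rw [hKX]; positivity) (Real.log_pos (by exact_mod_cast (by omega)))
  have hfam := family (r := r) N0 (U ^ 4) (by omega) hq hrq hn hρq
    (L := Nat.lcmUpto r) (fun l h1 h2 => dvd_lcm (mem_Icc.2 ⟨h1, h2⟩))
    (Nat.lcmUpto_dvd_factorial r)
  set ρ := rad n with hρdef
  set P := primorial r with hPdef
  set z := q * (ρ * P) with hzdef
  set T := TT q r (ρ * P) (Nat.lcmUpto r) with hTdef
  set N := U ^ 4 with hN
  obtain ⟨f, hf1, hf2⟩ := hfam
  -- gain
  have hgain := num_gain hr200 h_log hK0 hK2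
  have hexp_le : Real.exp (K ^ 2 / 200) ≤ (U : ℝ) ^ (4 * r) := by
    rw [hUpow]
    apply Real.exp_le_exp.2
    have h1 : 0 ≤ Real.log ((r + 1).factorial : ℝ) :=
      Real.log_nonneg (by exact_mod_cast Nat.factorial_pos _)
    have h2 : 0 ≤ 2 * ((r : ℝ) * Real.log 2) := by positivity
    push_cast
    linarith
  have hgain2 : ((r + 1).factorial : ℝ) * (U : ℝ) ^ 2 * Real.exp (K ^ 2 / 200) ≤
      (U : ℝ) ^ (4 * r) := by
    have h0 : (0 : ℝ) < ((r + 1).factorial : ℝ) := by exact_mod_cast Nat.factorial_pos _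
    rw [hUpow, hUpow, ← Real.exp_log h0, ← Real.exp_add, ← Real.exp_add]
    apply Real.exp_le_exp.2
    push_cast
    linarith
  -- the quantity G
  set G := (q * ρ) * ∏ i ∈ Icc 1 r, (1 + i * z) with hG
  have hGρ : ((G * ρ : ℕ) : ℝ) * Real.exp (K ^ 2 / 200) ≤ (q : ℝ) ^ (2 * r + 1) := by
    have h1 : G * ρ ≤ q ^ (r + 1) * ((r + 1).factorial * U ^ (3 * r + 2)) := by
      calc G * ρ ≤ (q * ρ) * ((r + 1).factorial * z ^ r) * ρ :=
            Nat.mul_le_mul (Nat.mul_le_mul le_rfl (prod_le_fact r z hz1)) le_rfl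
        _ = q ^ (r + 1) * ((r + 1).factorial * (ρ ^ (r + 2) * P ^ r)) := by
            rw [hzdef]
            ring
        _ ≤ q ^ (r + 1) * ((r + 1).factorial * (U ^ (r + 2) * (U ^ 2) ^ r)) := by
            refine Nat.mul_le_mul le_rfl (Nat.mul_le_mul le_rfl (Nat.mul_le_mul ?_ ?_))
            · exact Nat.pow_le_pow_left hρU _
            · exact Nat.pow_le_pow_left hP _
        _ = q ^ (r + 1) * ((r + 1).factorial * U ^ (3 * r + 2)) := by
            rw [← pow_mul U 2 r, ← pow_add U (r + 2) (2 * r)]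
            congr 3
            ring
    have h1' : ((G * ρ : ℕ) : ℝ) ≤
        (q : ℝ) ^ (r + 1) * (((r + 1).factorial : ℝ) * (U : ℝ) ^ (3 * r + 2)) := by
      exact_mod_cast h1
    have h2 : (U : ℝ) ^ (7 * r) ≤ (q : ℝ) ^ r := by
      rw [pow_mul]
      refine pow_le_pow_left₀ (by positivity) ?_ _
      exact_mod_cast hq1.le
    calc ((G * ρ : ℕ) : ℝ) * Real.exp (K ^ 2 / 200) ≤
        (q : ℝ) ^ (r + 1) * (((r + 1).factorial : ℝ) * (U : ℝ) ^ (3 * r + 2)) *
          Real.exp (K ^ 2 / 200) := mul_le_mul_of_nonneg_right h1' (Real.exp_pos _).le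
      _ = (q : ℝ) ^ (r + 1) * ((U : ℝ) ^ (3 * r) *
          (((r + 1).factorial : ℝ) * (U : ℝ) ^ 2 * Real.exp (K ^ 2 / 200))) := by
          rw [pow_add (U : ℝ) (3 * r) 2]
          ring
      _ ≤ (q : ℝ) ^ (r + 1) * ((U : ℝ) ^ (3 * r) * (U : ℝ) ^ (4 * r)) := by
          gcongr
      _ = (q : ℝ) ^ (r + 1) * (U : ℝ) ^ (7 * r) := by
          rw [← pow_add]
          congr 2
          ring
      _ ≤ (q : ℝ) ^ (r + 1) * (q : ℝ) ^ r := by
          gcongr
      _ = _ := by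
          rw [← pow_add]
          congr 1
          ring
  -- height
  have hr1pos : (0 : ℝ) < (r : ℝ) + 1 := by positivity
  have hlogr : Real.log ((r : ℝ) + 1) ≤ (r : ℝ) + 1 := by linarith
  have hrl : (r : ℝ) * Real.log 2 ≤ r * 0.7 :=
    mul_le_mul_of_nonneg_left (by linarith) (by positivity)
  have hU0 : (0 : ℝ) < (U : ℝ) := by exact_mod_cast hU1
  have hlogU : Real.log (U : ℝ) = r * Real.log 2 := by rw [hUe, Real.log_exp]
  have hlog_z : Real.log ((1 + z : ℕ) : ℝ) ≤ 12 * ((r : ℝ) + 1) := by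
    have h1 : ((1 + z : ℕ) : ℝ) ≤ 4 * (U : ℝ) ^ 10 := by
      have : 1 + z ≤ 4 * U ^ 10 := by
        have : 1 ≤ U ^ 10 := Nat.one_le_pow _ _ hU1
        omega
      exact_mod_cast this
    have h2 := Real.log_le_log (by positivity) h1
    rw [Real.log_mul (by norm_num) (by positivity), Real.log_pow, hlogU,
      show (4 : ℝ) = 2 ^ 2 by norm_num, Real.log_pow] at h2
    push_cast at h2 ⊢
    linarith
  have hlog_rz : Real.log ((1 + r * z : ℕ) : ℝ) ≤ 12 * ((r : ℝ) + 1) := by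
    have h1 : ((1 + r * z : ℕ) : ℝ) ≤ 2 * (((r : ℝ) + 1) * (U : ℝ) ^ 10) := by
      have : 1 + r * z ≤ 2 * ((r + 1) * U ^ 10) := by
        calc 1 + r * z ≤ z + r * z := by omega
          _ = (r + 1) * z := by ring
          _ ≤ (r + 1) * (2 * U ^ 10) := Nat.mul_le_mul_left _ hz
          _ = _ := by ring
      exact_mod_cast this
    have h2 := Real.log_le_log (by positivity) h1
    rw [Real.log_mul (by norm_num) (by positivity), Real.log_mul (by positivity) (by positivity),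
      Real.log_pow, hlogU] at h2
    push_cast at h2 ⊢
    linarith
  have hlog_q : Real.log ((q * ρ : ℕ) : ℝ) ≤ 12 * ((r : ℝ) + 1) := by
    have h1 : ((q * ρ : ℕ) : ℝ) ≤ 2 * (U : ℝ) ^ 8 := by
      have : q * ρ ≤ 2 * U ^ 8 := by
        calc q * ρ ≤ (2 * U ^ 7) * U := Nat.mul_le_mul hq2 hρU
          _ = _ := by ring
      exact_mod_cast this
    have h0 : (0 : ℝ) < ((q * ρ : ℕ) : ℝ) := by
      exact_mod_cast Nat.mul_pos hq.pos (rad_pos n)
    have h2 := Real.log_le_log h0 h1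
    rw [Real.log_mul (by norm_num) (by positivity), Real.log_pow, hlogU] at h2
    push_cast at h2 ⊢
    linarith
  have hTr : ((2 * T + 1 : ℕ) : ℝ) ≤ 192 * (((r : ℝ) + 1) ^ 4 * (U : ℝ) ^ 29) := by
    have : 2 * T + 1 ≤ 192 * ((r + 1) ^ 4 * U ^ 29) := by
      have h1 : 1 ≤ (r + 1) ^ 4 * U ^ 29 :=
        Nat.mul_pos (Nat.pow_pos (Nat.succ_pos r)) (Nat.pow_pos hU1)
      have h2 : T ≤ 64 * ((r + 1) ^ 4 * U ^ 29) := by
        rw [← mul_assoc]
        exact hT
      omega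
    exact_mod_cast this
  have hXbig : 4632 * ((r : ℝ) + 1) ^ 6 * (U : ℝ) ^ 33 ≤ Real.log X := by
    rw [hKX, hUpow]
    calc 4632 * ((r : ℝ) + 1) ^ 6 * Real.exp ((33 : ℕ) * (r * Real.log 2)) ≤
        Real.exp (Real.log 2 / 2 * r) * Real.exp ((33 : ℕ) * (r * Real.log 2)) :=
          mul_le_mul_of_nonneg_right h_exp (Real.exp_pos _).le
      _ = Real.exp (67 / 2 * Real.log 2 * r) := by
          rw [← Real.exp_add]
          congr 1
          push_cast
          ring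
      _ ≤ Real.exp K := Real.exp_le_exp.2 hK1
  have hNr : (1 : ℝ) + r * (N : ℝ) ≤ ((r : ℝ) + 1) * (U : ℝ) ^ 4 := by
    have : 1 + r * N ≤ (r + 1) * U ^ 4 := by
      have : 1 ≤ U ^ 4 := Nat.one_le_pow _ _ hU1
      rw [hN, add_mul, one_mul]
      omega
    exact_mod_cast this
  have hheight : Real.log ((q * ρ : ℕ) : ℝ) + (((2 * T + 1) * N0 : ℕ) : ℝ) *
      Real.log ((1 + z : ℕ) : ℝ) + ((r * ((2 * T + 1) * N) : ℕ) : ℝ) *
      Real.log ((1 + r * z : ℕ) : ℝ) ≤ Real.log X := by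
    have h1 : ((2 * T + 1 : ℕ) : ℝ) * Real.log ((1 + z : ℕ) : ℝ) ≤
        ((2 * T + 1 : ℕ) : ℝ) * (12 * ((r : ℝ) + 1)) :=
      mul_le_mul_of_nonneg_left hlog_z (Nat.cast_nonneg _)
    have h2 : ((r * ((2 * T + 1) * N) : ℕ) : ℝ) * Real.log ((1 + r * z : ℕ) : ℝ) ≤
        ((r * ((2 * T + 1) * N) : ℕ) : ℝ) * (12 * ((r : ℝ) + 1)) :=
      mul_le_mul_of_nonneg_left hlog_rz (Nat.cast_nonneg _)
    have h3 : ((2 * T + 1 : ℕ) : ℝ) * (12 * ((r : ℝ) + 1)) +
        ((r * ((2 * T + 1) * N) : ℕ) : ℝ) * (12 * ((r : ℝ) + 1)) =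
        ((2 * T + 1 : ℕ) : ℝ) * ((1 + r * (N : ℝ)) * (12 * ((r : ℝ) + 1))) := by
      push_cast
      ring
    have h5 : ((2 * T + 1 : ℕ) : ℝ) * ((1 + r * (N : ℝ)) * (12 * ((r : ℝ) + 1))) ≤
        192 * (((r : ℝ) + 1) ^ 4 * (U : ℝ) ^ 29) *
          ((((r : ℝ) + 1) * (U : ℝ) ^ 4) * (12 * ((r : ℝ) + 1))) := by
      gcongr
    have h6 : 192 * (((r : ℝ) + 1) ^ 4 * (U : ℝ) ^ 29) *
          ((((r : ℝ) + 1) * (U : ℝ) ^ 4) * (12 * ((r : ℝ) + 1))) =
        2304 * (((r : ℝ) + 1) ^ 6 * (U : ℝ) ^ 33) := by ring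
    have h7 : (r : ℝ) + 1 ≤ ((r : ℝ) + 1) ^ 6 * (U : ℝ) ^ 33 := by
      have a1 : (1 : ℝ) ≤ (U : ℝ) ^ 33 := one_le_pow₀ (by exact_mod_cast hU1)
      have a2 : (r : ℝ) + 1 ≤ ((r : ℝ) + 1) ^ 6 := le_self_pow₀ (by linarith) (by norm_num)
      nlinarith
    linarith
  have hX0 : (0 : ℝ) < X := by
    rcases Nat.eq_zero_or_pos X with h | h
    · exfalso
      rw [h] at hKX
      have := Real.exp_pos K
      rw [← hKX] at this
      simp at this
    · exact_mod_cast h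
  refine ⟨univ.image f, ?_, ?_⟩
  · rw [Finset.card_image_of_injective univ hf1, Finset.card_univ, Fintype.card_fun, Fintype.card_fin,
      Fintype.card_fin]
    refine hexp_le.trans (le_of_eq ?_)
    rw [hN]
    push_cast
    rw [← pow_mul]
  · intro m hm
    obtain ⟨ν, -, rfl⟩ := mem_image.1 hm
    obtain ⟨g1, g2, g3, g4, g5⟩ := hf2 ν
    have hlow : √(X : ℝ) < (f ν : ℝ) := by
      have h1 : √(X : ℝ) ≤ (((1 + z) ^ ((2 * T + 1) * N0) : ℕ) : ℝ) := by
        push_cast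
        rw [← Real.log_le_log_iff (Real.sqrt_pos.2 hX0) (by positivity), Real.log_sqrt hX0.le,
          Real.log_pow]
        have := hN1
        push_cast at this ⊢
        exact this
      refine lt_of_le_of_lt h1 ?_
      exact_mod_cast g4
    have hup : f ν ≤ X := by
      have hfpos : 0 < f ν := lt_of_le_of_lt (Nat.zero_le _) g4
      have h1 : (f ν : ℝ) ≤ X := by
        have h2 : (f ν : ℝ) ≤ (((q * ρ) * ((1 + z) ^ ((2 * T + 1) * N0) *
          (1 + r * z) ^ (r * ((2 * T + 1) * N))) : ℕ) : ℝ) := by exact_mod_cast g5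
        refine h2.trans ?_
        have hqρ : (0 : ℝ) < ((q * ρ : ℕ) : ℝ) := by
          exact_mod_cast Nat.mul_pos hq.pos (rad_pos n)
        have e : (((q * ρ) * ((1 + z) ^ ((2 * T + 1) * N0) *
          (1 + r * z) ^ (r * ((2 * T + 1) * N))) : ℕ) : ℝ) =
          ((q * ρ : ℕ) : ℝ) * (((1 + z : ℕ) : ℝ) ^ ((2 * T + 1) * N0) *
          ((1 + r * z : ℕ) : ℝ) ^ (r * ((2 * T + 1) * N))) := by
          rw [Nat.cast_mul, Nat.cast_mul ((1 + z) ^ ((2 * T + 1) * N0)), Nat.cast_pow,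
            Nat.cast_pow]
        rw [e, ← Real.log_le_log_iff (by positivity) hX0, Real.log_mul hqρ.ne' (by positivity),
          Real.log_mul (by positivity) (by positivity), Real.log_pow, Real.log_pow]
        linarith [hheight]
      exact_mod_cast h1
    refine ⟨hlow, hup, ?_⟩
    have hf1' : 1 < f ν := by
      have h1 : 1 ≤ (1 + z) ^ ((2 * T + 1) * N0) := Nat.one_le_pow _ _ (by omega)
      omega
    have hne : f ν ≠ n := by
      intro h
      rw [h] at g1 hf1'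
      rw [Nat.coprime_self] at g1
      omega
    rcases lt_or_gt_of_ne hne with h | h
    · -- `f ν < n`
      have hd : q ^ (2 * r + 2) ∣ n - f ν := (Nat.modEq_iff_dvd' h.le).1 g2
      have hD0 : n - f ν ≠ 0 := by omega
      refine ⟨f ν, n - f ν, n, by omega, by omega, ?_, by omega, Or.inr ⟨rfl, rfl⟩, ?_⟩
      · rw [Nat.coprime_sub_self_right h.le]
        exact g1
      · have h1 := rad_triple (D := n - f ν) (m := f ν) hq (by omega) hn.ne' (by omega) hD0 hd g3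
        have h2 : ((rad (f ν * n * (n - f ν)) : ℕ) : ℝ) * (q : ℝ) ^ (2 * r + 1) ≤
            ((G * ρ : ℕ) : ℝ) * ((n - f ν : ℕ) : ℝ) := by
          have : rad (f ν * n * (n - f ν)) * q ^ (2 * r + 1) ≤ G * ρ * (n - f ν) := h1
          exact_mod_cast this
        have h3 : f ν * (n - f ν) * n = f ν * n * (n - f ν) := by ring
        rw [h3]
        have hqp : (0 : ℝ) < (q : ℝ) ^ (2 * r + 1) := by
          have : (0 : ℝ) < q := by exact_mod_cast hq.pos
          positivity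
        have h4 : ((n - f ν : ℕ) : ℝ) < n := by
          have : n - f ν < n := by omega
          exact_mod_cast this
        have hDpos : (0 : ℝ) ≤ ((n - f ν : ℕ) : ℝ) := Nat.cast_nonneg _
        refine lt_of_mul_lt_mul_right ?_ hqp.le
        calc ((rad (f ν * n * (n - f ν)) : ℕ) : ℝ) * Real.exp (K ^ 2 / 200) *
              (q : ℝ) ^ (2 * r + 1) = (((rad (f ν * n * (n - f ν)) : ℕ) : ℝ) *
              (q : ℝ) ^ (2 * r + 1)) * Real.exp (K ^ 2 / 200) := by ring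
          _ ≤ (((G * ρ : ℕ) : ℝ) * ((n - f ν : ℕ) : ℝ)) * Real.exp (K ^ 2 / 200) :=
              mul_le_mul_of_nonneg_right h2 (Real.exp_pos _).le
          _ = ((n - f ν : ℕ) : ℝ) * (((G * ρ : ℕ) : ℝ) * Real.exp (K ^ 2 / 200)) := by ring
          _ ≤ ((n - f ν : ℕ) : ℝ) * (q : ℝ) ^ (2 * r + 1) :=
              mul_le_mul_of_nonneg_left hGρ hDpos
          _ < n * (q : ℝ) ^ (2 * r + 1) := mul_lt_mul_of_pos_right h4 hqp
    · -- `n < f ν`
      have hd : q ^ (2 * r + 2) ∣ f ν - n := (Nat.modEq_iff_dvd' h.le).1 g2.symm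
      have hD0 : f ν - n ≠ 0 := by omega
      refine ⟨n, f ν - n, f ν, by omega, by omega, ?_, by omega, Or.inl ⟨rfl, rfl⟩, ?_⟩
      · rw [Nat.coprime_sub_self_right h.le]
        exact g1.symm
      · have h1 := rad_triple (D := f ν - n) (m := f ν) hq (by omega) hn.ne' (by omega) hD0 hd g3
        have h2 : ((rad (f ν * n * (f ν - n)) : ℕ) : ℝ) * (q : ℝ) ^ (2 * r + 1) ≤
            ((G * ρ : ℕ) : ℝ) * ((f ν - n : ℕ) : ℝ) := by
          have : rad (f ν * n * (f ν - n)) * q ^ (2 * r + 1) ≤ G * ρ * (f ν - n) := h1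
          exact_mod_cast this
        have h3 : n * (f ν - n) * f ν = f ν * n * (f ν - n) := by ring
        rw [h3]
        have hqp : (0 : ℝ) < (q : ℝ) ^ (2 * r + 1) := by
          have : (0 : ℝ) < q := by exact_mod_cast hq.pos
          positivity
        have h4 : ((f ν - n : ℕ) : ℝ) < f ν := by
          have : f ν - n < f ν := by omega
          exact_mod_cast this
        have hDpos : (0 : ℝ) ≤ ((f ν - n : ℕ) : ℝ) := Nat.cast_nonneg _
        refine lt_of_mul_lt_mul_right ?_ hqp.le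
        calc ((rad (f ν * n * (f ν - n)) : ℕ) : ℝ) * Real.exp (K ^ 2 / 200) *
              (q : ℝ) ^ (2 * r + 1) = (((rad (f ν * n * (f ν - n)) : ℕ) : ℝ) *
              (q : ℝ) ^ (2 * r + 1)) * Real.exp (K ^ 2 / 200) := by ring
          _ ≤ (((G * ρ : ℕ) : ℝ) * ((f ν - n : ℕ) : ℝ)) * Real.exp (K ^ 2 / 200) :=
              mul_le_mul_of_nonneg_right h2 (Real.exp_pos _).le
          _ = ((f ν - n : ℕ) : ℝ) * (((G * ρ : ℕ) : ℝ) * Real.exp (K ^ 2 / 200)) := by ring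
          _ ≤ ((f ν - n : ℕ) : ℝ) * (q : ℝ) ^ (2 * r + 1) :=
              mul_le_mul_of_nonneg_left hGρ hDpos
          _ < f ν * (q : ℝ) ^ (2 * r + 1) := mul_lt_mul_of_pos_right h4 hqp

end Pool.Agent.T2H21.PM
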