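import Pool.Agent.T2H21.PM.Log

/-!
The group of residues `≡ 1 mod q` modulo `q ^ k`.
-/

set_option autoImplicit false

namespace Pool.Agent.T2H21.PM

open Finset Polynomial

/-- the units `≡ 1 mod q` -/
def U1 (q k : ℕ) : Subgroup (ZMod (q ^ k))ˣ where
  carrier := {u | (q : ZMod (q ^ k)) ∣ (u : ZMod (q ^ k)) - 1}
  mul_mem' := by
    intro a b ha hb
    simp only [Set.mem_ofPred_eq] at ha hb ⊢
    have e : ((a * b : (ZMod (q ^ k))ˣ) : ZMod (q ^ k)) - 1 =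
        ((a : ZMod (q ^ k)) - 1) * b + ((b : ZMod (q ^ k)) - 1) := by
      push_cast
      ring
    rw [e]
    exact dvd_add (ha.mul_right _) hb
  one_mem' := by simp
  inv_mem' := by
    intro a ha
    simp only [Set.mem_ofPred_eq] at ha ⊢
    have e : ((a⁻¹ : (ZMod (q ^ k))ˣ) : ZMod (q ^ k)) - 1 =
        -(((a : ZMod (q ^ k)) - 1) * ((a⁻¹ : (ZMod (q ^ k))ˣ) : ZMod (q ^ k))) := by
      rw [sub_mul, Units.mul_inv]
      ring
    rw [e]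
    exact (ha.mul_right _).neg_right

theorem mem_U1 {q k : ℕ} {u : (ZMod (q ^ k))ˣ} :
    u ∈ U1 q k ↔ (q : ZMod (q ^ k)) ∣ (u : ZMod (q ^ k)) - 1 := Iff.rfl

theorem exists_int {n : ℕ} (y : ZMod n) : ∃ a : ℤ, (a : ZMod n) = y :=
  ZMod.intCast_surjective y

theorem aeval_int {n : ℕ} (p : ℤ[X]) (a : ℤ) : aeval (a : ZMod n) p = ((p.eval a : ℤ) : ZMod n) := by
  rw [aeval_def, eval₂_eq_eval_map]
  have : ((a : ℤ) : ZMod n) = (Int.castRingHom (ZMod n)) a := rfl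
  rw [this, eval_map, ← algebraMap_int_eq]
  exact (hom_eval₂ p (RingHom.id ℤ) (algebraMap ℤ (ZMod n)) a).symm.trans (by simp [eval₂_eq_eval_map])

/-- the truncated logarithm -/
noncomputable def lam (q k : ℕ) (u : (ZMod (q ^ k))ˣ) : ZMod (q ^ k) :=
  aeval ((u : ZMod (q ^ k)) - 1) (Lp k)

theorem q_pow_zero (q k : ℕ) : ((q : ZMod (q ^ k))) ^ k = 0 := by
  have := ZMod.natCast_self (q ^ k)
  rwa [Nat.cast_pow] at this

theorem lam_mul {q k : ℕ} (hk : 1 ≤ k) {u v : (ZMod (q ^ k))ˣ} (hu : u ∈ U1 q k)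
    (hv : v ∈ U1 q k) : lam q k (u * v) = lam q k u + lam q k v := by
  obtain ⟨y', hy⟩ := mem_U1.1 hu
  obtain ⟨w', hw⟩ := mem_U1.1 hv
  obtain ⟨y, rfl⟩ := exists_int y'
  obtain ⟨w, rfl⟩ := exists_int w'
  unfold lam
  have h1 : ((u * v : (ZMod (q ^ k))ˣ) : ZMod (q ^ k)) - 1 =
      (((q : ℤ) * y + (q : ℤ) * w + ((q : ℤ) * y) * ((q : ℤ) * w) : ℤ) : ZMod (q ^ k)) := by
    have hu' : (u : ZMod (q ^ k)) = 1 + q * y := by rw [← hy]; ring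
    have hv' : (v : ZMod (q ^ k)) = 1 + q * w := by rw [← hw]; ring
    push_cast
    rw [hu', hv']
    ring
  have h2 : (u : ZMod (q ^ k)) - 1 = (((q : ℤ) * y : ℤ) : ZMod (q ^ k)) := by
    rw [hy]; push_cast; ring
  have h3 : (v : ZMod (q ^ k)) - 1 = (((q : ℤ) * w : ℤ) : ZMod (q ^ k)) := by
    rw [hw]; push_cast; ring
  rw [h1, h2, h3, aeval_int, aeval_int, aeval_int]
  obtain ⟨t, ht⟩ := add_int hk (q : ℤ) y w
  have h4 : (Lp k).eval ((q : ℤ) * y + (q : ℤ) * w + ((q : ℤ) * y) * ((q : ℤ) * w)) =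
      (Lp k).eval ((q : ℤ) * y) + (Lp k).eval ((q : ℤ) * w) + (q : ℤ) ^ k * t := by
    linarith
  rw [h4]
  push_cast
  rw [q_pow_zero]
  ring

/-- the truncated logarithm as a homomorphism -/
noncomputable def lamHom (q k : ℕ) (hk : 1 ≤ k) : U1 q k →* Multiplicative (ZMod (q ^ k)) where
  toFun u := Multiplicative.ofAdd (lam q k u)
  map_one' := by
    have h := lam_mul hk (one_mem (U1 q k)) (one_mem (U1 q k))
    rw [one_mul] at h
    have h0 : lam q k (1 : (ZMod (q ^ k))ˣ) = 0 := by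
      have := h.symm
      rwa [add_eq_left] at this
    show Multiplicative.ofAdd (lam q k ((1 : U1 q k) : (ZMod (q ^ k))ˣ)) = 1
    rw [Subgroup.coe_one, h0]
    rfl
  map_mul' := by
    intro a b
    show Multiplicative.ofAdd (lam q k ((a * b : U1 q k) : (ZMod (q ^ k))ˣ)) = _
    rw [Subgroup.coe_mul, lam_mul hk a.2 b.2]
    rfl

theorem lam_prod_zpow {q k : ℕ} (hk : 1 ≤ k) (s : Finset ℕ) (x : ℕ → (ZMod (q ^ k))ˣ)
    (hx : ∀ i, x i ∈ U1 q k) (e : ℕ → ℤ) :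
    lam q k (∏ i ∈ s, x i ^ e i) = ∑ i ∈ s, (e i : ZMod (q ^ k)) * lam q k (x i) := by
  have h := map_prod (lamHom q k hk) (fun i => (⟨x i, hx i⟩ : U1 q k) ^ e i) s
  have h1 : (((∏ i ∈ s, (⟨x i, hx i⟩ : U1 q k) ^ e i : U1 q k)) : (ZMod (q ^ k))ˣ) =
      ∏ i ∈ s, x i ^ e i := by
    rw [Subgroup.val_finsetProd]
    simp
  have h2 : lam q k (∏ i ∈ s, x i ^ e i) =
      Multiplicative.toAdd (lamHom q k hk (∏ i ∈ s, (⟨x i, hx i⟩ : U1 q k) ^ e i)) := by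
    show _ = lam q k _
    rw [h1]
  rw [h2, h, toAdd_prod]
  refine sum_congr rfl fun i _ => ?_
  rw [map_zpow, toAdd_zpow]
  show e i • lam q k (x i) = _
  rw [zsmul_eq_mul]

theorem U1_prod_zpow {q k : ℕ} (s : Finset ℕ) (x : ℕ → (ZMod (q ^ k))ˣ)
    (hx : ∀ i, x i ∈ U1 q k) (e : ℕ → ℤ) : ∏ i ∈ s, x i ^ e i ∈ U1 q k :=
  Subgroup.prod_mem _ fun i _ => Subgroup.zpow_mem _ (hx i) _

theorem isNilp {q k : ℕ} (y : ZMod (q ^ k)) : IsNilpotent ((q : ZMod (q ^ k)) * y) :=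
  ⟨k, by rw [mul_pow, q_pow_zero, zero_mul]⟩

theorem isUnit_add {q k : ℕ} {a : ZMod (q ^ k)} (ha : IsUnit a) (y : ZMod (q ^ k)) :
    IsUnit (a + q * y) :=
  (isNilp y).isUnit_add_left_of_commute ha (Commute.all _ _)

theorem isUnit_int {q k : ℕ} (hq : q.Prime) {a : ℤ} (ha : ¬ (q : ℤ) ∣ a) :
    IsUnit (a : ZMod (q ^ k)) := by
  have h1 : IsCoprime (a : ℤ) ((q : ℤ) ^ k) := by
    refine IsCoprime.pow_right ?_
    rw [Int.isCoprime_iff_gcd_eq_one]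
    have h2 := (Nat.Prime.coprime_iff_not_dvd hq).2 (fun h => ha (Int.natCast_dvd.2 h))
    rw [Int.gcd_comm]
    exact h2
  obtain ⟨u, v, huv⟩ := h1
  refine IsUnit.of_mul_eq_one (u : ZMod (q ^ k)) ?_
  have h3 := congrArg (fun t : ℤ => (t : ZMod (q ^ k))) huv
  push_cast at h3
  rw [q_pow_zero, mul_zero, add_zero] at h3
  rw [mul_comm]
  exact h3

/-- from the order of the logarithm to the order of the unit -/
theorem order_of_lam {q k h : ℕ} (hq : q.Prime) (hk : 1 ≤ k) (hqk : k ≤ q) {u : (ZMod (q ^ k))ˣ}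
    (hu : u ∈ U1 q k) {ω : ZMod (q ^ k)} (hω : IsUnit ω) (hl : lam q k u = q ^ h * ω) (hk2 : 2 ≤ k) :
    ∃ ω' : ZMod (q ^ k), IsUnit ω' ∧ (u : ZMod (q ^ k)) = 1 + q ^ h * ω' := by
  obtain ⟨y, hy⟩ := mem_U1.1 hu
  -- `Lp = X * (C N + X * P)`
  have hd : X ^ 2 ∣ Lp k - C ((k - 1).factorial : ℤ) * X := by
    rw [X_pow_dvd_iff]
    intro d hd
    rw [coeff_sub, coeff_Lp, coeff_C_mul, coeff_X]
    interval_cases d
    · simp [lc]
    · unfold lc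
      rw [if_neg (by norm_num), if_neg (by omega)]
      simp
  obtain ⟨P, hP⟩ := hd
  have hP' : Lp k = X * (C ((k - 1).factorial : ℤ) + X * P) := by
    calc Lp k = (Lp k - C ((k - 1).factorial : ℤ) * X) + C ((k - 1).factorial : ℤ) * X := by ring
      _ = _ := by rw [hP]; ring
  have h1 : lam q k u = ((u : ZMod (q ^ k)) - 1) *
      (((k - 1).factorial : ℤ) + q * (y * aeval ((u : ZMod (q ^ k)) - 1) P)) := by
    unfold lam
    rw [hP']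
    simp only [map_mul, map_add, aeval_X, aeval_C]
    rw [← mul_assoc (q : ZMod (q ^ k)) y, ← hy]
    simp
  have hN : IsUnit (((((k - 1).factorial : ℕ) : ℤ) : ZMod (q ^ k))) := by
    refine isUnit_int hq ?_
    intro h
    have h2 : q ∣ (k - 1).factorial := by exact_mod_cast h
    have := (hq.dvd_factorial).1 h2
    omega
  have hU := isUnit_add hN (y * aeval ((u : ZMod (q ^ k)) - 1) P)
  obtain ⟨s, hs⟩ := hU
  rw [hl] at h1
  refine ⟨ω * ((s⁻¹ : (ZMod (q ^ k))ˣ) : ZMod (q ^ k)), hω.mul s⁻¹.isUnit, ?_⟩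
  rw [← hs] at h1
  have h2 : (u : ZMod (q ^ k)) - 1 = q ^ h * (ω * ((s⁻¹ : (ZMod (q ^ k))ˣ) : ZMod (q ^ k))) := by
    rw [← mul_assoc, h1, mul_assoc, Units.mul_inv, mul_one]
  rw [← h2]
  ring

theorem digit {q k : ℕ} (hq : q.Prime) (ρ ω : ZMod (q ^ k)) (hω : IsUnit ω) (hk : 1 ≤ k) :
    ∃ d < q, (q : ZMod (q ^ k)) ∣ ρ - d * ω := by
  haveI : Fact q.Prime := ⟨hq⟩
  obtain ⟨r, rfl⟩ := exists_int ρ
  obtain ⟨w, rfl⟩ := exists_int ω
  have hw : ((w : ℤ) : ZMod q) ≠ 0 := by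
    intro h0
    rw [ZMod.intCast_zmod_eq_zero_iff_dvd] at h0
    obtain ⟨t, rfl⟩ := h0
    have h1 : IsNilpotent ((((q : ℤ) * t : ℤ)) : ZMod (q ^ k)) := by
      push_cast
      exact isNilp _
    haveI : Nontrivial (ZMod (q ^ k)) := by
      have : 1 < q ^ k := Nat.one_lt_pow (by omega) hq.one_lt
      exact ZMod.nontrivial_iff.2 (by omega)
    exact (h1.not_isUnit) hω
  set d : ZMod q := (r : ZMod q) * (w : ZMod q)⁻¹ with hd
  refine ⟨d.val, ZMod.val_lt d, ?_⟩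
  have h1 : ((r - (d.val : ℤ) * w : ℤ) : ZMod q) = 0 := by
    push_cast
    rw [ZMod.natCast_zmod_val, hd, mul_assoc, inv_mul_cancel₀ hw, mul_one, sub_self]
  rw [ZMod.intCast_zmod_eq_zero_iff_dvd] at h1
  obtain ⟨t, ht⟩ := h1
  refine ⟨(t : ZMod (q ^ k)), ?_⟩
  have := congrArg (fun t : ℤ => (t : ZMod (q ^ k))) ht
  push_cast at this
  exact this

theorem step {q k h : ℕ} (hq : q.Prime) (hk : 1 ≤ k) (hh : 1 ≤ h) (g τ : (ZMod (q ^ k))ˣ)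
    {ω ρ : ZMod (q ^ k)} (hω : IsUnit ω) (hg : (g : ZMod (q ^ k)) = 1 + q ^ h * ω)
    (hτ : (τ : ZMod (q ^ k)) = 1 + q ^ h * ρ) :
    ∃ d < q, ∃ ρ' : ZMod (q ^ k),
      ((τ * (g ^ d)⁻¹ : (ZMod (q ^ k))ˣ) : ZMod (q ^ k)) = 1 + q ^ (h + 1) * ρ' := by
  obtain ⟨d, hd, s, hs⟩ := digit hq ρ ω hω hk
  refine ⟨d, hd, ?_⟩
  obtain ⟨c, hc⟩ := Polynomial.powAddExpansion (1 : ZMod (q ^ k)) (q ^ h * ω) d
  have h1 : ((g ^ d : (ZMod (q ^ k))ˣ) : ZMod (q ^ k)) = 1 + d * (q ^ h * ω) +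
      c * (q ^ h * ω) ^ 2 := by
    push_cast
    rw [hg, hc]
    simp
  obtain ⟨l, rfl⟩ : ∃ l, h = l + 1 := ⟨h - 1, by omega⟩
  have h2 : (τ : ZMod (q ^ k)) - ((g ^ d : (ZMod (q ^ k))ˣ) : ZMod (q ^ k)) =
      q ^ (l + 1 + 1) * (s - c * q ^ l * ω ^ 2) := by
    rw [h1, hτ]
    calc 1 + (q : ZMod (q ^ k)) ^ (l + 1) * ρ - (1 + d * (q ^ (l + 1) * ω) +
        c * (q ^ (l + 1) * ω) ^ 2) = q ^ (l + 1) * (ρ - d * ω) -
          c * (q ^ (l + 1) * ω) ^ 2 := by ring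
      _ = _ := by rw [hs]; ring
  refine ⟨(s - c * q ^ l * ω ^ 2) * (((g ^ d)⁻¹ : (ZMod (q ^ k))ˣ) : ZMod (q ^ k)), ?_⟩
  rw [← mul_assoc, ← h2, sub_mul, Units.mul_inv]
  push_cast
  ring

/-- representation by digits -/
theorem digits {q k : ℕ} (hq : q.Prime) (hk : 1 ≤ k) (G : ℕ → (ZMod (q ^ k))ˣ)
    (hG : ∀ h, 1 ≤ h → h < k → ∃ ω : ZMod (q ^ k), IsUnit ω ∧
      (G h : ZMod (q ^ k)) = 1 + q ^ h * ω) (τ : (ZMod (q ^ k))ˣ) (hτ : τ ∈ U1 q k) :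
    ∃ d : ℕ → ℕ, (∀ h, d h < q) ∧ τ = ∏ h ∈ Ico 1 k, G h ^ d h := by
  have key : ∀ j, 1 ≤ j → j ≤ k → ∃ d : ℕ → ℕ, (∀ h, d h < q) ∧ ∃ ρ : ZMod (q ^ k),
      ((τ * (∏ h ∈ Ico 1 j, G h ^ d h)⁻¹ : (ZMod (q ^ k))ˣ) : ZMod (q ^ k)) = 1 + q ^ j * ρ := by
    intro j hj
    induction j, hj using Nat.le_induction with
    | base =>
      intro _
      refine ⟨fun _ => 0, fun _ => hq.pos, ?_⟩
      obtain ⟨ρ, hρ⟩ := mem_U1.1 hτ
      refine ⟨ρ, ?_⟩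
      simp only [Ico_self, prod_empty, inv_one, mul_one, pow_one]
      rw [← hρ]
      ring
    | succ j hj ih =>
      intro hjk
      obtain ⟨d, hd, ρ, hρ⟩ := ih (by omega)
      obtain ⟨ω, hω, hGω⟩ := hG j hj (by omega)
      obtain ⟨e, he, ρ', hρ'⟩ := step hq hk hj (G j) _ hω hGω hρ
      refine ⟨Function.update d j e, fun h => ?_, ρ', ?_⟩
      · by_cases hh : h = j
        · subst hh
          rw [Function.update_self]
          exact he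
        · rw [Function.update_of_ne hh]
          exact hd h
      · rw [prod_Ico_succ_top hj, Function.update_self]
        have e1 : ∏ h ∈ Ico 1 j, G h ^ (Function.update d j e) h = ∏ h ∈ Ico 1 j, G h ^ d h := by
          refine prod_congr rfl fun h hh => ?_
          rw [mem_Ico] at hh
          rw [Function.update_of_ne (by omega)]
        rw [e1, mul_inv, ← mul_assoc]
        exact hρ'
  obtain ⟨d, hd, ρ, hρ⟩ := key k hk le_rfl
  refine ⟨d, hd, ?_⟩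
  rw [q_pow_zero, zero_mul, add_zero] at hρ
  have h1 : τ * (∏ h ∈ Ico 1 k, G h ^ d h)⁻¹ = 1 := Units.ext hρ
  exact (mul_inv_eq_one.1 h1)

end Pool.Agent.T2H21.PM
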