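import Mathlib

/-!
The leading coefficient of the Hermite interpolation polynomial with double nodes `0, …, m`.
-/

set_option autoImplicit false

namespace Pool.Agent.T2H21.PM

open Finset Polynomial

/-- `∏ (X - l)` over `l ≤ m`, `l ≠ i` -/
noncomputable def wp (m i : ℕ) : ℚ[X] := ∏ l ∈ (range (m + 1)).erase i, (X - C (l : ℚ))

/-- the value of `wp m i` at `i` -/
noncomputable def wv (m i : ℕ) : ℚ := ∏ l ∈ (range (m + 1)).erase i, ((i : ℚ) - l)

/-- the sum of `1 / (i - l)` -/
noncomputable def cv (m i : ℕ) : ℚ := ∑ l ∈ (range (m + 1)).erase i, 1 / ((i : ℚ) - l)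

theorem eval_wp (m i : ℕ) : (wp m i).eval (i : ℚ) = wv m i := by
  unfold wp wv
  rw [eval_prod]
  simp

theorem wv_ne (m i : ℕ) : wv m i ≠ 0 := by
  unfold wv
  rw [prod_ne_zero_iff]
  intro l hl
  rw [mem_erase] at hl
  rw [sub_ne_zero]
  exact_mod_cast hl.1.symm

theorem eval_der_wp (m i : ℕ) : (derivative (wp m i)).eval (i : ℚ) = wv m i * cv m i := by
  unfold wp
  rw [derivative_prod_finset, eval_finsetSum]
  unfold cv
  rw [mul_sum]
  refine sum_congr rfl fun l hl => ?_
  have hne : ((i : ℚ) - l) ≠ 0 := by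
    rw [mem_erase] at hl
    rw [sub_ne_zero]
    exact_mod_cast hl.1.symm
  rw [eval_mul, eval_prod]
  unfold wv
  rw [← mul_prod_erase _ _ hl]
  simp only [eval_sub, eval_X, eval_C, derivative_sub, derivative_X, derivative_C, sub_zero,
    eval_one, mul_one]
  field_simp

theorem monic_wp (m i : ℕ) : (wp m i).Monic :=
  monic_prod_of_monic _ _ fun l _ => monic_X_sub_C _

theorem natDegree_wp (m i : ℕ) (hi : i ∈ range (m + 1)) : (wp m i).natDegree = m := by
  unfold wp
  rw [natDegree_prod_of_monic _ _ fun l _ => monic_X_sub_C _]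
  simp only [natDegree_X_sub_C, sum_const, smul_eq_mul, mul_one]
  rw [card_erase_of_mem hi, card_range]
  omega

theorem sq_dvd_of {p : ℚ[X]} {a : ℚ} (h0 : p.eval a = 0) (h1 : (derivative p).eval a = 0) :
    (X - C a) ^ 2 ∣ p := by
  obtain ⟨g, hg⟩ := dvd_iff_isRoot.2 (show p.IsRoot a from h0)
  have h2 : g.eval a = 0 := by
    rw [hg, derivative_mul] at h1
    simpa using h1
  obtain ⟨h, hh⟩ := dvd_iff_isRoot.2 (show g.IsRoot a from h2)
  refine ⟨h, ?_⟩
  rw [hg, hh]
  ring

/-- the term of the interpolation polynomial -/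
noncomputable def tm (m : ℕ) (F : ℚ[X]) (i : ℕ) : ℚ[X] :=
  (C (F.eval (i : ℚ)) + (X - C (i : ℚ)) *
    C ((derivative F).eval (i : ℚ) - 2 * cv m i * F.eval (i : ℚ))) *
    (C (1 / wv m i ^ 2) * wp m i ^ 2)

theorem tm_sq_dvd {m : ℕ} (F : ℚ[X]) {i j : ℕ} (hi : i ∈ range (m + 1)) (hij : i ≠ j) :
    (X - C (i : ℚ)) ^ 2 ∣ tm m F j := by
  have h1 : (X - C (i : ℚ)) ∣ wp m j := by
    unfold wp
    exact dvd_prod_of_mem (fun l : ℕ => X - C (l : ℚ)) (mem_erase.2 ⟨hij, hi⟩)
  unfold tm
  exact ((pow_dvd_pow_of_dvd h1 2).mul_left _).mul_left _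

theorem sub_tm_sq_dvd {m : ℕ} (F : ℚ[X]) (i : ℕ) :
    (X - C (i : ℚ)) ^ 2 ∣ F - tm m F i := by
  have hw := wv_ne m i
  apply sq_dvd_of
  · unfold tm
    simp only [eval_sub, eval_mul, eval_add, eval_C, eval_X, eval_pow, eval_wp, sub_self,
      zero_mul, add_zero]
    field_simp
    ring
  · unfold tm
    simp only [derivative_sub, derivative_mul, derivative_add, derivative_C, derivative_X,
      derivative_pow, eval_sub, eval_mul, eval_add, eval_C, eval_X, eval_pow, eval_wp,
      eval_der_wp, sub_self, zero_mul, add_zero, sub_zero, zero_add, eval_one, one_mul,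
      mul_zero, eval_zero, Nat.cast_ofNat, Nat.add_one_sub_one, pow_one]
    field_simp
    ring

/-- **Hermite interpolation at the double nodes `0, …, m`: the leading coefficient.** -/
theorem hermite (m : ℕ) (F : ℚ[X]) (hF : F.natDegree ≤ 2 * m + 1) :
    ∑ i ∈ range (m + 1), ((derivative F).eval (i : ℚ) - 2 * cv m i * F.eval (i : ℚ)) /
      wv m i ^ 2 = F.coeff (2 * m + 1) := by
  classical
  set I : ℚ[X] := ∑ i ∈ range (m + 1), tm m F i with hI
  have hdvd : ∀ i ∈ range (m + 1), (X - C (i : ℚ)) ^ 2 ∣ F - I := by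
    intro i hi
    rw [hI, ← add_sum_erase _ _ hi]
    have e : F - (tm m F i + ∑ j ∈ (range (m + 1)).erase i, tm m F j) =
        (F - tm m F i) - ∑ j ∈ (range (m + 1)).erase i, tm m F j := by ring
    rw [e]
    refine dvd_sub (sub_tm_sq_dvd F i) (dvd_sum fun j hj => ?_)
    rw [mem_erase] at hj
    exact tm_sq_dvd F hi hj.1.symm
  have hcop : ((range (m + 1) : Finset ℕ) : Set ℕ).Pairwise
      (Function.onFun IsCoprime fun i : ℕ => (X - C (i : ℚ)) ^ 2) := by
    intro i _ j _ hij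
    have h := pairwise_coprime_X_sub_C (K := ℚ) (s := fun i : ℕ => (i : ℚ)) Nat.cast_injective hij
    exact IsCoprime.pow h
  have hprod : ∏ i ∈ range (m + 1), (X - C (i : ℚ)) ^ 2 ∣ F - I :=
    Finset.prod_dvd_of_coprime hcop hdvd
  have hdegP : (∏ i ∈ range (m + 1), (X - C (i : ℚ)) ^ 2).natDegree = 2 * (m + 1) := by
    rw [natDegree_prod_of_monic _ _ fun l _ => (monic_X_sub_C _).pow 2]
    simp only [natDegree_pow, natDegree_X_sub_C, sum_const, smul_eq_mul, mul_one, card_range]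
    ring
  have hdegt : ∀ i ∈ range (m + 1), (tm m F i).natDegree ≤ 2 * m + 1 := by
    intro i hi
    unfold tm
    refine natDegree_mul_le.trans ?_
    have h1 : (C (F.eval (i : ℚ)) + (X - C (i : ℚ)) *
        C ((derivative F).eval (i : ℚ) - 2 * cv m i * F.eval (i : ℚ))).natDegree ≤ 1 := by
      refine (natDegree_add_le _ _).trans ?_
      rw [natDegree_C]
      refine max_le (Nat.zero_le _) ?_
      refine natDegree_mul_le.trans ?_
      rw [natDegree_C, natDegree_X_sub_C]
    have h2 : (C (1 / wv m i ^ 2) * wp m i ^ 2).natDegree ≤ 2 * m := by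
      refine natDegree_mul_le.trans ?_
      rw [natDegree_C, natDegree_pow, natDegree_wp m i hi]
      omega
    omega
  have hdegI : I.natDegree ≤ 2 * m + 1 :=
    natDegree_sum_le_of_forall_le _ _ hdegt
  have hFI : F - I = 0 := by
    by_contra hne
    have h1 := natDegree_le_of_dvd hprod hne
    have h2 : (F - I).natDegree ≤ 2 * m + 1 :=
      (natDegree_sub_le _ _).trans (max_le hF hdegI)
    omega
  have hFI' : F = I := sub_eq_zero.1 hFI
  conv_rhs => rw [hFI', hI, finsetSum_coeff]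
  refine sum_congr rfl fun i hi => ?_
  unfold tm
  set β : ℚ := (derivative F).eval (i : ℚ) - 2 * cv m i * F.eval (i : ℚ) with hβ
  have hmon : (wp m i ^ 2).Monic := (monic_wp m i).pow 2
  have hdeg : (wp m i ^ 2).natDegree = 2 * m := by
    rw [natDegree_pow, natDegree_wp m i hi]
  have hc1 : (wp m i ^ 2).coeff (2 * m + 1) = 0 :=
    coeff_eq_zero_of_natDegree_lt (by omega)
  have hc2 : (wp m i ^ 2).coeff (2 * m) = 1 := by
    rw [← hdeg]
    exact hmon
  have e : (C (F.eval (i : ℚ)) + (X - C (i : ℚ)) * C β) * (C (1 / wv m i ^ 2) * wp m i ^ 2) =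
      C ((F.eval (i : ℚ) - i * β) * (1 / wv m i ^ 2)) * wp m i ^ 2 +
        X * (C (β * (1 / wv m i ^ 2)) * wp m i ^ 2) := by
    simp only [map_mul, map_sub]
    ring
  rw [e, coeff_add, coeff_C_mul, hc1, coeff_X_mul, coeff_C_mul, hc2]
  ring

end Pool.Agent.T2H21.PM
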