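import Pool.Agent.T2H21.PM.Coef

/-!
A truncated logarithm on the residues `≡ 1 mod q` modulo `q ^ k`.
-/

set_option autoImplicit false

namespace Pool.Agent.T2H21.PM

open Finset Polynomial

/-- coefficients of the truncated logarithm, multiplied by `(k - 1)!` -/
def lc (k n : ℕ) : ℤ := if n = 0 then 0 else if k ≤ n then 0 else
  (-1) ^ (n + 1) * (((k - 1).factorial / n : ℕ) : ℤ)

/-- `(k - 1)!` times the truncated logarithm of `1 + X` -/
noncomputable def Lp (k : ℕ) : ℤ[X] := ∑ n ∈ range k, C (lc k n) * X ^ n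

theorem coeff_Lp (k n : ℕ) : (Lp k).coeff n = lc k n := by
  unfold Lp
  rw [finsetSum_coeff]
  simp only [coeff_C_mul, coeff_X_pow]
  by_cases h : n < k
  · rw [sum_eq_single n]
    · simp
    · intro b _ hb
      rw [if_neg hb.symm, mul_zero]
    · intro h'
      exact absurd (mem_range.2 h) h'
  · rw [sum_eq_zero]
    · unfold lc
      split_ifs with h1 h2
      · rfl
      · rfl
      · omega
    · intro b hb
      rw [mem_range] at hb
      rw [if_neg (by omega), mul_zero]

theorem dvd_fac {k n : ℕ} (h1 : n ≠ 0) (h2 : n < k) : n ∣ (k - 1).factorial :=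
  Nat.dvd_factorial (by omega) (by omega)

theorem der_Lp {k : ℕ} (hk : 1 ≤ k) : (1 + X) * derivative (Lp k) =
    C ((k - 1).factorial : ℤ) * (1 - (-X) ^ (k - 1)) := by
  have h1 : derivative (Lp k) = C ((k - 1).factorial : ℤ) * ∑ n ∈ range (k - 1), (-X) ^ n := by
    ext n
    rw [coeff_derivative, coeff_Lp, coeff_C_mul, finsetSum_coeff]
    have h2 : ∀ b, ((-X : ℤ[X]) ^ b).coeff n = if n = b then (-1) ^ n else 0 := by
      intro b
      rw [neg_pow, show ((-1 : ℤ[X]) ^ b) = C ((-1) ^ b) by simp, coeff_C_mul, coeff_X_pow]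
      split_ifs with h
      · rw [h]; ring
      · ring
    simp only [h2]
    by_cases h : n < k - 1
    · rw [sum_ite_eq, if_pos (mem_range.2 h)]
      unfold lc
      rw [if_neg (by omega), if_neg (by omega)]
      have h3 := dvd_fac (k := k) (n := n + 1) (by omega) (by omega)
      have h4 : (((k - 1).factorial / (n + 1) : ℕ) : ℤ) * ((n : ℤ) + 1) =
          ((k - 1).factorial : ℤ) := by
        have := Nat.div_mul_cancel h3
        exact_mod_cast this
      calc (-1) ^ (n + 1 + 1) * (((k - 1).factorial / (n + 1) : ℕ) : ℤ) * ((n : ℤ) + 1) =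
          (-1) ^ (n + 1 + 1) * ((((k - 1).factorial / (n + 1) : ℕ) : ℤ) * ((n : ℤ) + 1)) := by ring
        _ = _ := by rw [h4]; ring
    · rw [sum_ite_eq, if_neg (by rwa [mem_range])]
      unfold lc
      rw [if_neg (by omega), if_pos (by omega)]
      ring
  have h5 : (1 + X : ℤ[X]) * ∑ n ∈ range (k - 1), (-X) ^ n = 1 - (-X) ^ (k - 1) := by
    have := mul_neg_geom_sum (-X : ℤ[X]) (k - 1)
    rw [sub_neg_eq_add] at this
    exact this
  rw [h1, ← h5]
  ring

theorem der_comp {k : ℕ} (hk : 1 ≤ k) (Q : ℤ[X]) : (1 + Q) * (derivative (Lp k)).comp Q =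
    C ((k - 1).factorial : ℤ) * (1 - (-Q) ^ (k - 1)) := by
  have h := congrArg (fun p : ℤ[X] => p.comp Q) (der_Lp hk)
  simpa using h

/-- additivity: the polynomial -/
noncomputable def Ap (k : ℕ) (y w : ℤ) : ℤ[X] :=
  (Lp k).comp (C y * X + C w * X + C (y * w) * X ^ 2) - (Lp k).comp (C y * X) -
    (Lp k).comp (C w * X)

theorem Ap_dvd {k : ℕ} (hk : 1 ≤ k) (y w : ℤ) : X ^ k ∣ Ap k y w := by
  set W : ℤ[X] := C y * X + C w * X + C (y * w) * X ^ 2 with hW
  set N : ℤ[X] := C ((k - 1).factorial : ℤ) with hN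
  have hW1 : 1 + W = (1 + C y * X) * (1 + C w * X) := by
    rw [hW, map_mul]
    ring
  have hW' : derivative W = C y * (1 + C w * X) + C w * (1 + C y * X) := by
    rw [hW]
    simp only [derivative_add, derivative_mul, derivative_C, derivative_X, derivative_X_pow,
      map_mul, zero_mul, zero_add, mul_one, Nat.cast_ofNat, map_ofNat, mul_zero, add_zero]
    ring
  have e1 := der_comp hk W
  have e2 := der_comp hk (C y * X)
  have e3 := der_comp hk (C w * X)
  rw [← hN] at e1 e2 e3
  have hp' : derivative (Ap k y w) = derivative W * (derivative (Lp k)).comp W -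
      C y * (derivative (Lp k)).comp (C y * X) - C w * (derivative (Lp k)).comp (C w * X) := by
    unfold Ap
    rw [derivative_sub, derivative_sub, derivative_comp, derivative_comp, derivative_comp,
      ← hW]
    simp
  have hD : ((1 + C y * X) * (1 + C w * X)) * derivative (Ap k y w) =
      N * (-(derivative W * (-W) ^ (k - 1)) + C y * (1 + C w * X) * (-(C y * X)) ^ (k - 1) +
        C w * (1 + C y * X) * (-(C w * X)) ^ (k - 1)) := by
    calc ((1 + C y * X) * (1 + C w * X)) * derivative (Ap k y w) =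
        derivative W * ((1 + W) * (derivative (Lp k)).comp W) -
        C y * (1 + C w * X) * ((1 + C y * X) * (derivative (Lp k)).comp (C y * X)) -
        C w * (1 + C y * X) * ((1 + C w * X) * (derivative (Lp k)).comp (C w * X)) := by
          rw [hp', hW1]
          ring
      _ = _ := by
          rw [e1, e2, e3, hW']
          ring
  have hXW : X ∣ W := by
    rw [hW]
    refine dvd_add (dvd_add (dvd_mul_left _ _) (dvd_mul_left _ _)) ?_
    exact (dvd_pow_self X two_ne_zero).mul_left _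
  have hdvd : X ^ (k - 1) ∣ ((1 + C y * X) * (1 + C w * X)) * derivative (Ap k y w) := by
    rw [hD]
    refine Dvd.dvd.mul_left ?_ _
    refine dvd_add (dvd_add ?_ ?_) ?_
    · refine (dvd_neg.2 ?_)
      exact (pow_dvd_pow_of_dvd (dvd_neg.2 hXW) _).mul_left _
    · exact (pow_dvd_pow_of_dvd (dvd_neg.2 (dvd_mul_left _ _)) _).mul_left _
    · exact (pow_dvd_pow_of_dvd (dvd_neg.2 (dvd_mul_left _ _)) _).mul_left _
  have hc : ∀ a : ℤ, IsCoprime (X : ℤ[X]) (1 + C a * X) := by
    intro a
    refine ⟨-C a, 1, ?_⟩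
    ring
  have hcop : IsCoprime (X ^ (k - 1) : ℤ[X]) ((1 + C y * X) * (1 + C w * X)) :=
    (IsCoprime.mul_right (hc y) (hc w)).pow_left
  have h1 : X ^ (k - 1) ∣ derivative (Ap k y w) := hcop.dvd_of_dvd_mul_left hdvd
  rw [X_pow_dvd_iff] at h1 ⊢
  intro n hn
  rcases Nat.eq_zero_or_pos n with h0 | h0
  · subst h0
    unfold Ap
    rw [coeff_zero_eq_eval_zero]
    simp only [eval_sub, eval_comp, eval_add, eval_mul, eval_C, eval_X, eval_pow, mul_zero,
      add_zero, ne_eq, OfNat.ofNat_ne_zero, not_false_eq_true, zero_pow]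
    rw [← coeff_zero_eq_eval_zero, coeff_Lp]
    simp [lc]
  · obtain ⟨l, rfl⟩ : ∃ l, n = l + 1 := ⟨n - 1, by omega⟩
    have h2 := h1 l (by omega)
    rw [coeff_derivative] at h2
    rcases mul_eq_zero.1 h2 with h3 | h3
    · exact h3
    · exfalso
      have : (0 : ℤ) < (l : ℤ) + 1 := by positivity
      omega

theorem add_int {k : ℕ} (hk : 1 ≤ k) (q y w : ℤ) :
    q ^ k ∣ (Lp k).eval (q * y + q * w + (q * y) * (q * w)) - (Lp k).eval (q * y) -
      (Lp k).eval (q * w) := by
  obtain ⟨g, hg⟩ := Ap_dvd hk y w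
  have h := congrArg (fun p : ℤ[X] => p.eval q) hg
  simp only [eval_mul, eval_pow, eval_X] at h
  refine ⟨g.eval q, ?_⟩
  rw [← h]
  unfold Ap
  simp only [eval_sub, eval_comp, eval_add, eval_mul, eval_C, eval_X, eval_pow]
  have e1 : y * q + w * q + y * w * q ^ 2 = q * y + q * w + (q * y) * (q * w) := by ring
  rw [e1, mul_comm y q, mul_comm w q]

end Pool.Agent.T2H21.PM
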