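import Pool.Agent.T2H21.PM.Ev

/-!
Numerical estimates.
-/

set_option autoImplicit false

namespace Pool.Agent.T2H21.PM

open Finset Filter Asymptotics

theorem num_gain {r : ℕ} {K : ℝ} (hr : 200 ≤ r)
    (hlog : Real.log ((r : ℝ) + 1) ≤ ((r : ℝ) + 1) / 100) (hK : 0 ≤ K)
    (hK2 : K ≤ 67 / 2 * Real.log 2 * ((r : ℝ) + 1)) :
    Real.log ((r + 1).factorial : ℝ) + 2 * (r * Real.log 2) + K ^ 2 / 200 ≤
      4 * (r * (r * Real.log 2)) := by
  have hr' : (200 : ℝ) ≤ r := by exact_mod_cast hr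
  have l1 := Real.log_two_gt_d9
  have l2 := Real.log_two_lt_d9
  have h1 : Real.log ((r + 1).factorial : ℝ) ≤ ((r : ℝ) + 1) ^ 2 / 100 := by
    have h2 : ((r + 1).factorial : ℝ) ≤ ((r : ℝ) + 1) ^ (r + 1) := by
      exact_mod_cast Nat.factorial_le_pow (r + 1)
    calc Real.log ((r + 1).factorial : ℝ) ≤ Real.log (((r : ℝ) + 1) ^ (r + 1)) :=
          Real.log_le_log (by exact_mod_cast Nat.factorial_pos _) h2
      _ = ((r : ℝ) + 1) * Real.log ((r : ℝ) + 1) := by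
          rw [Real.log_pow]
          push_cast
          ring
      _ ≤ ((r : ℝ) + 1) * (((r : ℝ) + 1) / 100) :=
          mul_le_mul_of_nonneg_left hlog (by positivity)
      _ = _ := by ring
  have h3 : K ≤ 23.221 * ((r : ℝ) + 1) := by
    refine hK2.trans (mul_le_mul_of_nonneg_right ?_ (by positivity))
    linarith
  have h4 : K ^ 2 ≤ 539.2149 * ((r : ℝ) + 1) ^ 2 := by
    calc K ^ 2 ≤ (23.221 * ((r : ℝ) + 1)) ^ 2 := pow_le_pow_left₀ hK h3 2
      _ = 23.221 ^ 2 * ((r : ℝ) + 1) ^ 2 := by ring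
      _ ≤ _ := mul_le_mul_of_nonneg_right (by norm_num) (by positivity)
  have h5 : (r : ℝ) * Real.log 2 ≤ r * 0.6932 :=
    mul_le_mul_of_nonneg_left (by linarith) (by positivity)
  have h6 : (r : ℝ) * (r * 0.6931) ≤ r * (r * Real.log 2) :=
    mul_le_mul_of_nonneg_left (mul_le_mul_of_nonneg_left (by linarith) (by positivity))
      (by positivity)
  nlinarith [h1, h4, h5, h6, hr']

theorem TT_le {q r w L U : ℕ} (hU : U = 2 ^ r) (hq : q ≤ 2 * U ^ 7) (hw : w ≤ U ^ 3)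
    (hL : L ≤ U ^ 3) : TT q r w L ≤ 64 * (r + 1) ^ 4 * U ^ 29 := by
  have h4 : 4 ^ r = U ^ 2 := by
    rw [hU, ← pow_mul, mul_comm, pow_mul]
    norm_num
  unfold TT
  rw [h4]
  calc (2 * r + 1) * q ^ 2 * (U ^ 2 * L * (4 * (r + 1) ^ 3) * (q * w)) ≤
      (2 * (r + 1)) * (2 * U ^ 7) ^ 2 * (U ^ 2 * U ^ 3 * (4 * (r + 1) ^ 3) *
        ((2 * U ^ 7) * U ^ 3)) := by
        refine Nat.mul_le_mul (Nat.mul_le_mul (by omega) (Nat.pow_le_pow_left hq _)) ?_
        refine Nat.mul_le_mul ?_ (Nat.mul_le_mul hq hw)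
        exact Nat.mul_le_mul (Nat.mul_le_mul le_rfl hL) le_rfl
    _ = _ := by ring

theorem prod_le_fact (r z : ℕ) (hz : 1 ≤ z) :
    ∏ i ∈ Icc 1 r, (1 + i * z) ≤ (r + 1).factorial * z ^ r := by
  have h1 : ∏ i ∈ Icc 1 r, (1 + i * z) ≤ ∏ i ∈ Icc 1 r, ((i + 1) * z) := by
    refine prod_le_prod' fun i _ => ?_
    rw [add_mul, one_mul]
    omega
  refine h1.trans (le_of_eq ?_)
  rw [prod_mul_distrib, prod_const, Nat.card_Icc, Nat.add_sub_cancel]
  congr 1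
  induction r with
  | zero => simp
  | succ r ih =>
    rw [Finset.prod_Icc_succ_top (by omega), ih, Nat.factorial_succ (r + 1), mul_comm]
    refine prod_le_prod' fun i _ => ?_
    rw [add_mul, one_mul]
    omega

/-- The choice of the multiple `N0`. -/
theorem exists_N0 {T : ℕ} {A B : ℝ} (hA : 0 ≤ A) (hB : 0 < B) :
    ∃ N0 : ℕ, A / 2 ≤ ((2 * T + 1) * N0 : ℕ) * B ∧
      ((2 * T + 1) * N0 : ℕ) * B ≤ A / 2 + (2 * T + 1 : ℕ) * B := by
  set M : ℝ := ((2 * T + 1 : ℕ) : ℝ) * B with hM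
  have hM0 : 0 < M := by positivity
  refine ⟨⌈A / 2 / M⌉₊, ?_, ?_⟩
  · have h1 := Nat.le_ceil (A / 2 / M)
    rw [div_le_iff₀ hM0] at h1
    calc A / 2 ≤ _ := h1
      _ = _ := by
        rw [hM]
        push_cast
        ring
  · have h1 := (Nat.ceil_lt_add_one (show (0 : ℝ) ≤ A / 2 / M by positivity)).le
    have h2 := mul_le_mul_of_nonneg_right h1 hM0.le
    rw [add_mul, div_mul_cancel₀ _ hM0.ne'] at h2
    calc ((2 * T + 1) * ⌈A / 2 / M⌉₊ : ℕ) * B = (⌈A / 2 / M⌉₊ : ℝ) * M := by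
          rw [hM]
          push_cast
          ring
      _ ≤ A / 2 + 1 * M := h2
      _ = _ := by rw [hM]; ring

end Pool.Agent.T2H21.PM
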