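import Pool.Agent.T2H21.PM.Rep

/-!
Radicals, and the integers `g * ∏ (1 + i z) ^ E i`.
-/

set_option autoImplicit false

namespace Pool.Agent.T2H21.PM

open Finset

/-- the radical -/
def rad (m : ℕ) : ℕ := ∏ p ∈ m.primeFactors, p

theorem rad_pos (m : ℕ) : 0 < rad m :=
  prod_pos fun _ hp => (Nat.prime_of_mem_primeFactors hp).pos

theorem rad_mul_le (m n : ℕ) (hm : m ≠ 0) (hn : n ≠ 0) : rad (m * n) ≤ rad m * rad n := by
  unfold rad
  rw [Nat.primeFactors_mul hm hn]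
  rw [← prod_union_inter]
  refine Nat.le_mul_of_pos_right _ ?_
  exact prod_pos fun p hp => (Nat.prime_of_mem_primeFactors (mem_inter.1 hp).1).pos

theorem rad_le (m : ℕ) (hm : m ≠ 0) : rad m ≤ m :=
  Nat.le_of_dvd (Nat.pos_of_ne_zero hm) (Nat.prod_primeFactors_dvd m)

theorem rad_pow_le (m k : ℕ) : rad (m ^ k) ≤ rad m := by
  rcases Nat.eq_zero_or_pos k with h | h
  · subst h
    rw [pow_zero]
    unfold rad
    rw [Nat.primeFactors_one, prod_empty]
    exact rad_pos m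
  · unfold rad
    rw [Nat.primeFactors_pow _ h.ne']

theorem rad_prod_le (s : Finset ℕ) (x E : ℕ → ℕ) (hx : ∀ i, x i ≠ 0) :
    rad (∏ i ∈ s, x i ^ E i) ≤ ∏ i ∈ s, x i := by
  classical
  induction s using Finset.induction_on with
  | empty => simp [rad]
  | insert b s hb ih =>
    rw [prod_insert hb, prod_insert hb]
    refine (rad_mul_le _ _ (pow_ne_zero _ (hx b)) ?_).trans ?_
    · exact prod_ne_zero_iff.2 fun i _ => pow_ne_zero _ (hx i)
    · exact Nat.mul_le_mul ((rad_pow_le _ _).trans (rad_le _ (hx b))) ih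

theorem dvd_rad {p n : ℕ} (hp : p.Prime) (hn : n ≠ 0) (h : p ∣ n) : p ∣ rad n :=
  dvd_prod_of_mem _ (Nat.mem_primeFactors.2 ⟨hp, h, hn⟩)

/-- a triple with members `m`, `n` and `m ≡ n mod q ^ k` -/
theorem rad_triple {q k n D G m : ℕ} (hq : q.Prime) (hk : 1 ≤ k) (hn : n ≠ 0) (hm : m ≠ 0)
    (hD : D ≠ 0) (hd : q ^ k ∣ D) (hG : rad m ≤ G) :
    rad (m * n * D) * q ^ (k - 1) ≤ G * rad n * D := by
  obtain ⟨l, hl⟩ := hd
  have hl0 : l ≠ 0 := by
    rintro rfl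
    exact hD (by rw [hl, mul_zero])
  have h1 : rad D ≤ q * l := by
    rw [hl]
    refine (rad_mul_le _ _ (pow_ne_zero _ hq.ne_zero) hl0).trans ?_
    exact Nat.mul_le_mul ((rad_pow_le _ _).trans (rad_le _ hq.ne_zero)) (rad_le _ hl0)
  have h2 : rad (m * n * D) ≤ G * rad n * (q * l) := by
    refine (rad_mul_le _ _ (mul_ne_zero hm hn) hD).trans (Nat.mul_le_mul ?_ h1)
    exact (rad_mul_le _ _ hm hn).trans (Nat.mul_le_mul hG le_rfl)
  have hqk : q * q ^ (k - 1) = q ^ k := by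
    rw [← pow_succ']
    congr 1
    omega
  calc rad (m * n * D) * q ^ (k - 1) ≤ G * rad n * (q * l) * q ^ (k - 1) :=
        Nat.mul_le_mul h2 le_rfl
    _ = G * rad n * ((q * q ^ (k - 1)) * l) := by ring
    _ = G * rad n * D := by rw [hqk, hl]

/-- pairwise coprimality -/
theorem coprime_x {r z i j : ℕ} (hz : ∀ p, p.Prime → p ≤ r → p ∣ z) (hi : i ≤ r)
    (hj : j ≤ r) (hij : i ≠ j) : Nat.Coprime (1 + i * z) (1 + j * z) := by
  refine Nat.Coprime.symm (Nat.Coprime.symm (Nat.coprime_of_dvd ?_))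
  intro p hp h1 h2
  have hpz : ¬ p ∣ z := by
    intro h
    have h3 : p ∣ 1 := by
      have := (Nat.dvd_add_left (h.mul_left i)).1 h1
      exact this
    exact hp.one_lt.ne' (Nat.dvd_one.1 h3)
  have hpr : ¬ p ≤ r := fun h => hpz (hz p hp h)
  have h3 : ((p : ℕ) : ℤ) ∣ ((i : ℤ) - j) * z := by
    have a1 : ((p : ℕ) : ℤ) ∣ (1 + (i : ℤ) * z) := by exact_mod_cast h1
    have a2 : ((p : ℕ) : ℤ) ∣ (1 + (j : ℤ) * z) := by exact_mod_cast h2
    have := dvd_sub a1 a2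
    have e : (1 + (i : ℤ) * z) - (1 + (j : ℤ) * z) = ((i : ℤ) - j) * z := by ring
    rwa [e] at this
  rcases (Nat.prime_iff_prime_int.1 hp).dvd_or_dvd h3 with h | h
  · have h4 : ((i : ℤ) - j) ≠ 0 := by
      rw [sub_ne_zero]
      exact_mod_cast hij
    have h5 := Int.le_of_dvd (abs_pos.2 h4) ((dvd_abs _ _).2 h)
    have h6 : |(i : ℤ) - j| ≤ r := by
      rw [abs_le]
      constructor <;> omega
    have : (p : ℤ) ≤ r := h5.trans h6
    exact hpr (by exact_mod_cast this)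
  · exact hpz (by exact_mod_cast h)

/-- independence -/
theorem indep_x {s : Finset ℕ} {x E F : ℕ → ℕ} (hx : ∀ i ∈ s, 1 < x i)
    (hc : ∀ i ∈ s, ∀ j ∈ s, i ≠ j → (x i).Coprime (x j))
    (h : ∏ i ∈ s, x i ^ E i = ∏ i ∈ s, x i ^ F i) : ∀ i ∈ s, E i ≤ F i := by
  classical
  intro j hj
  have h1 : x j ^ E j ∣ ∏ i ∈ s, x i ^ F i := by
    rw [← h]
    exact dvd_prod_of_mem (fun i => x i ^ E i) hj
  rw [← mul_prod_erase _ _ hj] at h1
  have h2 : (x j ^ E j).Coprime (∏ i ∈ s.erase j, x i ^ F i) := by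
    refine Nat.Coprime.prod_right fun i hi => ?_
    rw [mem_erase] at hi
    exact Nat.Coprime.pow _ _ (hc j hj i hi.2 hi.1.symm)
  have h3 := h2.dvd_of_dvd_mul_right h1
  exact (Nat.pow_dvd_pow_iff_le_right (hx j hj)).1 h3

end Pool.Agent.T2H21.PM
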