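import Pool.Agent.T2H21.PM.Core

/-!
Representation of a residue `≡ 1 mod q` by positive exponents.
-/

set_option autoImplicit false

namespace Pool.Agent.T2H21.PM

open Finset Polynomial

/-- bound for the exponents -/
def TT (q r w L : ℕ) : ℕ := (2 * r + 1) * q ^ 2 * (4 ^ r * L * (4 * (r + 1) ^ 3) * (q * w))

theorem ex_le {q r w L h i : ℕ} (hq : 1 ≤ q) (hw : 1 ≤ w) (hL : 1 ≤ L) (h2 : h < 2 * r + 2)
    : |ex q L (q * w) h i| ≤ q * (4 ^ r * L * (4 * (r + 1) ^ 3) * (q * w)) := by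
  have hq' : (1 : ℤ) ≤ q := by exact_mod_cast hq
  have hw' : (1 : ℤ) ≤ w := by exact_mod_cast hw
  have hL' : (1 : ℤ) ≤ L := by exact_mod_cast hL
  have hz' : (1 : ℤ) ≤ q * w := by nlinarith
  have hr' : (0 : ℤ) ≤ r := by positivity
  have h4 : (1 : ℤ) ≤ 4 ^ r := one_le_pow₀ (by norm_num)
  have h5 : (1 : ℤ) ≤ 4 * ((r : ℤ) + 1) ^ 3 := by
    have : (1 : ℤ) ≤ ((r : ℤ) + 1) ^ 3 := one_le_pow₀ (by linarith)
    linarith
  have h6 : (1 : ℤ) ≤ 4 ^ r * L * (4 * ((r : ℤ) + 1) ^ 3) * (q * w) := by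
    have a1 : (1 : ℤ) ≤ 4 ^ r * L := by nlinarith
    have a2 : (1 : ℤ) ≤ 4 ^ r * L * (4 * ((r : ℤ) + 1) ^ 3) := by nlinarith
    nlinarith
  have h7 : (1 : ℤ) ≤ q * (4 ^ r * L * (4 * ((r : ℤ) + 1) ^ 3) * (q * w)) := by nlinarith
  unfold ex
  split_ifs with a1 a2 a3 a4
  · rw [abs_one]; exact h7
  · rw [abs_zero]; linarith
  · rw [one_mul]
    have hm : h / 2 ≤ r := by omega
    refine (ev_le (h / 2) L i a3 _ hz').trans ?_
    have b1 : (4 : ℤ) ^ (h / 2) ≤ 4 ^ r := pow_le_pow_right₀ (by norm_num) hm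
    have b2 : (((h / 2 : ℕ) : ℤ) + 1) ≤ r + 1 := by
      have : ((h / 2 : ℕ) : ℤ) ≤ r := by exact_mod_cast hm
      linarith
    have b3 : (0 : ℤ) ≤ ((h / 2 : ℕ) : ℤ) := by positivity
    calc 4 ^ (h / 2) * (L : ℤ) * (4 * (((h / 2 : ℕ) : ℤ) + 1) ^ 3) * (q * w) ≤
        4 ^ r * (L : ℤ) * (4 * ((r : ℤ) + 1) ^ 3) * (q * w) := by gcongr
      _ ≤ q * (4 ^ r * L * (4 * ((r : ℤ) + 1) ^ 3) * (q * w)) := by nlinarith
  · rw [abs_mul, abs_of_nonneg (show (0 : ℤ) ≤ (q : ℤ) by positivity)]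
    have hm : h / 2 ≤ r := by omega
    have b1 : (4 : ℤ) ^ (h / 2) ≤ 4 ^ r := pow_le_pow_right₀ (by norm_num) hm
    have b2 : (((h / 2 : ℕ) : ℤ) + 1) ≤ r + 1 := by
      have : ((h / 2 : ℕ) : ℤ) ≤ r := by exact_mod_cast hm
      linarith
    have b3 : (0 : ℤ) ≤ ((h / 2 : ℕ) : ℤ) := by positivity
    have b4 := ev_le (h / 2) L i a3 _ hz'
    have b5 : 4 ^ (h / 2) * (L : ℤ) * (4 * (((h / 2 : ℕ) : ℤ) + 1) ^ 3) * (q * w) ≤
        4 ^ r * (L : ℤ) * (4 * ((r : ℤ) + 1) ^ 3) * (q * w) := by gcongr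
    exact mul_le_mul_of_nonneg_left (b4.trans b5) (by linarith)
  · rw [abs_zero]; linarith

theorem zpow_sum' {G : Type*} [CommGroup G] (x : G) (s : Finset ℕ) (a : ℕ → ℤ) :
    x ^ (∑ h ∈ s, a h) = ∏ h ∈ s, x ^ a h := by
  classical
  induction s using Finset.induction_on with
  | empty => simp
  | insert b s hb ih => rw [sum_insert hb, prod_insert hb, zpow_add, ih]

/-- **Core.** Every residue `≡ 1 mod q` is a product of small powers of the `1 + i q w`. -/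
theorem core {q r w : ℕ} (hq : q.Prime) (hr : 2 * r + 2 < q) (hw : ¬ q ∣ w) (hr1 : 1 ≤ r)
    (x : ℕ → (ZMod (q ^ (2 * r + 2)))ˣ)
    (hx : ∀ i, (x i : ZMod (q ^ (2 * r + 2))) = 1 + i * (q * w)) {L : ℕ}
    (hL : ∀ l, 1 ≤ l → l ≤ r → l ∣ L) (hL2 : L ∣ r.factorial)
    (τ : (ZMod (q ^ (2 * r + 2)))ˣ) (hτ : τ ∈ U1 q (2 * r + 2)) :
    ∃ f : ℕ → ℤ, (∀ i, |f i| ≤ TT q r w L) ∧ ∏ i ∈ Icc 1 r, x i ^ f i = τ := by
  have hw1 : 1 ≤ w := Nat.pos_of_ne_zero fun h => hw (h ▸ dvd_zero q)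
  have hL1 : 1 ≤ L := Nat.pos_of_dvd_of_pos hL2 (Nat.factorial_pos r)
  obtain ⟨d, hd, hd2⟩ := digits hq (by omega)
    (fun h => ∏ i ∈ Icc 1 r, x i ^ ex q L (q * w) h i)
    (fun h h1 h2 => G_order x hq hr hw hr1 hx hL hL2 h h1 h2) τ hτ
  refine ⟨fun i => ∑ h ∈ Ico 1 (2 * r + 2), ex q L (q * w) h i * d h, fun i => ?_, ?_⟩
  · have hC : (0 : ℤ) ≤ q * (4 ^ r * L * (4 * ((r : ℤ) + 1) ^ 3) * (q * w)) := by positivity
    calc |∑ h ∈ Ico 1 (2 * r + 2), ex q L (q * w) h i * (d h : ℤ)| ≤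
        ∑ h ∈ Ico 1 (2 * r + 2), |ex q L (q * w) h i * (d h : ℤ)| := abs_sum_le_sum_abs _ _
      _ ≤ ∑ _h ∈ Ico 1 (2 * r + 2),
          (q * (4 ^ r * L * (4 * ((r : ℤ) + 1) ^ 3) * (q * w))) * (q : ℤ) := by
          refine sum_le_sum fun h hh => ?_
          rw [mem_Ico] at hh
          rw [abs_mul, abs_of_nonneg (show (0 : ℤ) ≤ (d h : ℤ) by positivity)]
          have h1 : (d h : ℤ) ≤ q := by exact_mod_cast (hd h).le
          have h2 := ex_le (q := q) (w := w) (L := L) (i := i) hq.one_le hw1 hL1 hh.2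
          gcongr
      _ = ((TT q r w L : ℕ) : ℤ) := by
          rw [sum_const, Nat.card_Ico, nsmul_eq_mul]
          unfold TT
          have : 2 * r + 2 - 1 = 2 * r + 1 := by omega
          rw [this]
          push_cast
          ring
  · rw [hd2]
    simp only [← prod_pow]
    rw [prod_comm]
    refine prod_congr rfl fun i _ => ?_
    rw [zpow_sum']
    refine prod_congr rfl fun h _ => ?_
    rw [zpow_mul, zpow_natCast]

/-- with prescribed positive windows for the exponents -/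
theorem core_pos {q r w : ℕ} (hq : q.Prime) (hr : 2 * r + 2 < q) (hw : ¬ q ∣ w) (hr1 : 1 ≤ r)
    {L : ℕ} (hL : ∀ l, 1 ≤ l → l ≤ r → l ∣ L) (hL2 : L ∣ r.factorial)
    {n g : ℕ} (hg : n ≡ g [MOD q]) (hn : n.Coprime q) (s : ℕ → ℕ)
    (hs : ∀ i, TT q r w L ≤ s i) :
    ∃ E : ℕ → ℕ, (∀ i, s i ≤ E i + TT q r w L ∧ E i ≤ s i + TT q r w L) ∧
      n ≡ g * ∏ i ∈ Icc 1 r, (1 + i * (q * w)) ^ E i [MOD q ^ (2 * r + 2)] := by
  have hx1 : ∀ i : ℕ, (1 + i * (q * w)).Coprime (q ^ (2 * r + 2)) := by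
    intro i
    refine Nat.Coprime.pow_right _ ?_
    rw [show 1 + i * (q * w) = 1 + q * (i * w) by ring]
    simp
  have hgq : g.Coprime q := by
    have := hg.gcd_eq
    unfold Nat.Coprime at hn ⊢
    rw [← this, hn]
  set x : ℕ → (ZMod (q ^ (2 * r + 2)))ˣ := fun i => ZMod.unitOfCoprime _ (hx1 i) with hxdef
  have hx : ∀ i, (x i : ZMod (q ^ (2 * r + 2))) = 1 + i * (q * w) := by
    intro i
    rw [hxdef]
    simp only [ZMod.coe_unitOfCoprime]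
    push_cast
    ring
  set un : (ZMod (q ^ (2 * r + 2)))ˣ := ZMod.unitOfCoprime n (hn.pow_right _) with hun
  set ug : (ZMod (q ^ (2 * r + 2)))ˣ := ZMod.unitOfCoprime g (hgq.pow_right _) with hug
  have hmem : un * ug⁻¹ * (∏ i ∈ Icc 1 r, x i ^ ((s i : ℕ) : ℤ))⁻¹ ∈ U1 q (2 * r + 2) := by
    refine Subgroup.mul_mem _ ?_ (Subgroup.inv_mem _ (U1_prod_zpow _ _ (x_mem x hx) _))
    rw [mem_U1]
    have h1 : (q : ZMod (q ^ (2 * r + 2))) ∣ (n : ZMod (q ^ (2 * r + 2))) -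
        (g : ZMod (q ^ (2 * r + 2))) := by
      have h2 : (q : ℤ) ∣ (n : ℤ) - g := by
        have := (Nat.modEq_iff_dvd.1 hg)
        rw [← dvd_neg]
        simpa using this
      obtain ⟨t, ht⟩ := h2
      refine ⟨(t : ZMod _), ?_⟩
      have h3 := congrArg (fun t : ℤ => (t : ZMod (q ^ (2 * r + 2)))) ht
      push_cast at h3
      exact h3
    have e : ((un * ug⁻¹ : (ZMod (q ^ (2 * r + 2)))ˣ) : ZMod (q ^ (2 * r + 2))) - 1 =
        ((n : ZMod (q ^ (2 * r + 2))) - (g : ZMod (q ^ (2 * r + 2)))) * ((ug⁻¹ : (ZMod (q ^ (2 * r + 2)))ˣ) : ZMod (q ^ (2 * r + 2))) := by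
      rw [sub_mul]
      have e1 : (g : ZMod (q ^ (2 * r + 2))) = (ug : ZMod (q ^ (2 * r + 2))) := by
        rw [hug, ZMod.coe_unitOfCoprime]
      have e2 : (n : ZMod (q ^ (2 * r + 2))) = (un : ZMod (q ^ (2 * r + 2))) := by
        rw [hun, ZMod.coe_unitOfCoprime]
      rw [e1, e2, Units.mul_inv]
      push_cast
      ring
    rw [e]
    exact h1.mul_right _
  obtain ⟨f, hf, hf2⟩ := core hq hr hw hr1 x hx hL hL2 _ hmem
  refine ⟨fun i => (f i + s i).toNat, fun i => ?_, ?_⟩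
  · have h1 := abs_le.1 (hf i)
    have h2 := hs i
    constructor
    · zify
      rw [Int.toNat_of_nonneg (by omega)]
      omega
    · zify
      rw [Int.toNat_of_nonneg (by omega)]
      omega
  · rw [← ZMod.natCast_eq_natCast_iff]
    have h3 : un = ug * ∏ i ∈ Icc 1 r, x i ^ (f i + s i).toNat := by
      have h4 : ∏ i ∈ Icc 1 r, x i ^ (f i + s i).toNat =
          (∏ i ∈ Icc 1 r, x i ^ f i) * ∏ i ∈ Icc 1 r, x i ^ ((s i : ℕ) : ℤ) := by
        rw [← prod_mul_distrib]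
        refine prod_congr rfl fun i _ => ?_
        rw [← zpow_add, ← zpow_natCast, Int.toNat_of_nonneg]
        have h1 := abs_le.1 (hf i)
        have h2 := hs i
        omega
      rw [h4, hf2]
      group
      simp [mul_comm]
    have h5 := congrArg (fun u : (ZMod (q ^ (2 * r + 2)))ˣ => (u : ZMod (q ^ (2 * r + 2)))) h3
    simp only [hun, hug, hxdef, ZMod.coe_unitOfCoprime, Units.val_mul, Units.coe_prod,
      Units.val_pow_eq_pow_val] at h5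
    push_cast at h5 ⊢
    exact h5

end Pool.Agent.T2H21.PM
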